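import Mathlib

/-!
# Existence of injective envelopes
-/

set_option autoImplicit false
universe u

namespace Pool.MP_9c7981_al.H7

open Function

/-- every submodule has a maximal submodule disjoint from it -/
theorem exists_max_disjoint {A : Type*} [Ring A] {X : Type*} [AddCommGroup X] [Module A X]
    (M : Submodule A X) : ∃ C : Submodule A X, Maximal (fun C => M ⊓ C = ⊥) C := by
  obtain ⟨C, -, hC⟩ := zorn_le_nonempty₀ {C : Submodule A X | M ⊓ C = ⊥} (by
    intro c hc hchain y hy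
    refine ⟨sSup c, ?_, fun z hz => le_sSup hz⟩
    change M ⊓ sSup c = ⊥
    rw [eq_bot_iff]
    intro x hx
    obtain ⟨hxM, hxc⟩ := Submodule.mem_inf.mp hx
    rw [Submodule.mem_sSup_of_directed ⟨y, hy⟩ hchain.directedOn] at hxc
    obtain ⟨z, hz, hxz⟩ := hxc
    have h1 : x ∈ M ⊓ z := ⟨hxM, hxz⟩
    have h2 : M ⊓ z = ⊥ := hc hz
    rw [h2] at h1
    exact h1) ⊥ (show M ⊓ ⊥ = ⊥ by simp)
  exact ⟨C, hC⟩

/-- a maximal disjoint submodule is a complement up to essential extensions -/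
theorem sup_essential_of_max {A : Type*} [Ring A] {X : Type*} [AddCommGroup X] [Module A X]
    {M C : Submodule A X} (hC : Maximal (fun C => M ⊓ C = ⊥) C) (N : Submodule A X) (hN : N ≠ ⊥) :
    (M ⊔ C) ⊓ N ≠ ⊥ := by
  intro h
  have hd : Disjoint (M ⊔ C) N := disjoint_iff.mpr h
  have hMC : Disjoint M C := disjoint_iff.mpr hC.prop
  have h1 : Disjoint M (C ⊔ N) := hMC.disjoint_sup_right_of_disjoint_sup_left hd
  have h2 : C ⊔ N ≤ C := hC.2 (disjoint_iff.mp h1) le_sup_left
  have h3 : N ≤ (M ⊔ C) ⊓ N := le_inf (le_trans (le_trans le_sup_right h2) le_sup_right) le_rfl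
  rw [h] at h3
  exact hN (le_bot_iff.mp h3)

theorem exists_injective_envelope (A : Type u) [Ring A] (X : Type u) [AddCommGroup X]
    [Module A X] :
    ∃ (E : Type u) (_ : AddCommGroup E) (_ : Module A E) (ι : X →ₗ[A] E),
      Module.Injective A E ∧ Injective ι ∧
        ∀ N : Submodule A E, N ≠ ⊥ → N ⊓ LinearMap.range ι ≠ ⊥ := by
  classical
  -- an injective module containing `X`
  obtain ⟨E0, i1, i2, ι0, hE0, hι0⟩ : ∃ (E0 : Type u) (_ : AddCommGroup E0) (_ : Module A E0)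
      (ι0 : X →ₗ[A] E0), Module.Injective A E0 ∧ Injective ι0 := by
    let J := CategoryTheory.Injective.under (ModuleCat.of A X)
    let f := CategoryTheory.Injective.ι (ModuleCat.of A X)
    refine ⟨J, inferInstance, inferInstance, f.hom, ?_, ?_⟩
    · have hJ : CategoryTheory.Injective J := CategoryTheory.Injective.injective_under _
      exact (Module.injective_iff_injective_object A J).mpr hJ
    · exact (ModuleCat.mono_iff_injective f).mp inferInstance
  -- a maximal essential extension of the image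
  let R0 : Submodule A E0 := LinearMap.range ι0
  let 𝒮 : Set (Submodule A E0) := {N | R0 ≤ N ∧ ∀ N' ≤ N, N' ≠ ⊥ → N' ⊓ R0 ≠ ⊥}
  have hR0 : R0 ∈ 𝒮 := by
    refine ⟨le_rfl, ?_⟩
    intro N' hN' hne
    rwa [inf_eq_left.mpr hN']
  obtain ⟨M, hRM, hM⟩ := zorn_le_nonempty₀ 𝒮 (by
    intro c hc hchain y hy
    refine ⟨sSup c, ⟨le_trans (hc hy).1 (le_sSup hy), ?_⟩, fun z hz => le_sSup hz⟩
    intro N' hN' hne
    obtain ⟨x, hx, hx0⟩ := (Submodule.ne_bot_iff _).mp hne
    have hxc := hN' hx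
    rw [Submodule.mem_sSup_of_directed ⟨y, hy⟩ hchain.directedOn] at hxc
    obtain ⟨z, hz, hxz⟩ := hxc
    have h1 : Submodule.span A {x} ≤ z := by
      rw [Submodule.span_singleton_le_iff_mem]; exact hxz
    have h2 : Submodule.span A {x} ≠ ⊥ := by
      rw [Ne, Submodule.span_singleton_eq_bot]; exact hx0
    have h3 := (hc hz).2 _ h1 h2
    intro h4
    apply h3
    rw [eq_bot_iff] at h4 ⊢
    refine le_trans (inf_le_inf_right _ ?_) h4
    rw [Submodule.span_singleton_le_iff_mem]; exact hx) R0 hR0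
  obtain ⟨C, hC⟩ := exists_max_disjoint M
  have hMC : M ⊓ C = ⊥ := hC.prop
  -- the map M → E0 ⧸ C
  let q : M →ₗ[A] (E0 ⧸ C) := C.mkQ ∘ₗ M.subtype
  have hq : Injective q := by
    rw [← LinearMap.ker_eq_bot, LinearMap.ker_eq_bot']
    intro m hm
    have h1 : (m : E0) ∈ C := by
      have : C.mkQ (m : E0) = 0 := hm
      rwa [Submodule.mkQ_apply, Submodule.Quotient.mk_eq_zero] at this
    have h2 : (m : E0) ∈ M ⊓ C := ⟨m.2, h1⟩
    rw [hMC] at h2
    exact Subtype.ext ((Submodule.mem_bot A).mp h2)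
  obtain ⟨θ, hθ⟩ := hE0.out q hq M.subtype
  -- essentiality of the image of q
  have hess : ∀ N : Submodule A (E0 ⧸ C), N ≠ ⊥ → N ⊓ LinearMap.range q ≠ ⊥ := by
    intro N hN hbot
    have hCN : C ≤ N.comap C.mkQ := by
      intro x hx
      rw [Submodule.mem_comap, Submodule.mkQ_apply, (Submodule.Quotient.mk_eq_zero C).mpr hx]
      exact N.zero_mem
    have h1 : M ⊓ N.comap C.mkQ = ⊥ := by
      rw [eq_bot_iff]
      intro x hx
      obtain ⟨hxM, hxN⟩ := Submodule.mem_inf.mp hx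
      have h2 : q ⟨x, hxM⟩ ∈ N ⊓ LinearMap.range q := ⟨hxN, ⟨_, rfl⟩⟩
      rw [hbot] at h2
      have h3 : q ⟨x, hxM⟩ = q 0 := by rw [(Submodule.mem_bot A).mp h2, map_zero]
      have h4 := hq h3
      have h5 : x = 0 := congrArg Subtype.val h4
      rw [h5]; exact Submodule.zero_mem _
    have h2 : N.comap C.mkQ ≤ C := hC.2 h1 hCN
    apply hN
    rw [eq_bot_iff]
    intro y hy
    obtain ⟨x, rfl⟩ := C.mkQ_surjective y
    have : x ∈ C := h2 hy
    rw [Submodule.mem_bot, Submodule.mkQ_apply, Submodule.Quotient.mk_eq_zero]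
    exact this
  have hθinj : Injective θ := by
    rw [← LinearMap.ker_eq_bot]
    by_contra hne
    apply hess _ hne
    rw [eq_bot_iff]
    rintro y ⟨hy1, ⟨m, rfl⟩⟩
    have h1 : θ (q m) = 0 := hy1
    rw [hθ m] at h1
    have h2 : m = 0 := Subtype.ext h1
    rw [h2, map_zero]; exact Submodule.zero_mem _
  -- range θ ⊇ M is an essential extension of R0, so equals M
  have hMθ : M ≤ LinearMap.range θ := by
    intro m hm
    exact ⟨q ⟨m, hm⟩, hθ ⟨m, hm⟩⟩
  have hθS : LinearMap.range θ ∈ 𝒮 := by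
    refine ⟨le_trans hRM hMθ, ?_⟩
    intro N' hN' hne
    -- N' ⊓ M ≠ ⊥
    have h1 : N' ⊓ M ≠ ⊥ := by
      intro hbot
      have h2 : N'.comap θ ≠ ⊥ := by
        intro h3
        apply hne
        rw [eq_bot_iff]
        intro y hy
        obtain ⟨z, rfl⟩ := hN' hy
        have h4 : z ∈ N'.comap θ := hy
        rw [h3] at h4
        rw [(Submodule.mem_bot A).mp h4, map_zero]; exact Submodule.zero_mem _
      apply hess _ h2
      rw [eq_bot_iff]
      rintro y ⟨hy1, ⟨m, rfl⟩⟩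
      have h3 : (m : E0) ∈ N' ⊓ M := ⟨by
        have h4 : θ (q m) ∈ N' := hy1
        rw [hθ m] at h4
        exact h4, m.2⟩
      rw [hbot] at h3
      have h4 : m = 0 := Subtype.ext ((Submodule.mem_bot A).mp h3)
      rw [h4, map_zero]; exact Submodule.zero_mem _
    have h2 := hM.prop.2 _ (inf_le_right : N' ⊓ M ≤ M) h1
    intro h3
    apply h2
    rw [eq_bot_iff] at h3 ⊢
    exact le_trans (inf_le_inf_right _ inf_le_left) h3
  have hθM : LinearMap.range θ ≤ M := hM.2 hθS hMθ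
  have hθmem : ∀ y, θ y ∈ M := fun y => hθM ⟨y, rfl⟩
  -- the projection E0 → M
  let p : E0 →ₗ[A] M := LinearMap.codRestrict M (θ ∘ₗ C.mkQ) (fun x => hθmem _)
  have hp : ∀ m : M, p (m : E0) = m := by
    intro m
    apply Subtype.ext
    exact hθ m
  refine ⟨M, inferInstance, inferInstance, LinearMap.codRestrict M ι0 (fun x => hRM ⟨x, rfl⟩),
    ?_, ?_, ?_⟩
  · constructor
    intro X Y _ _ _ _ f hf g
    obtain ⟨h, hh⟩ := hE0.out f hf (M.subtype ∘ₗ g)
    refine ⟨p ∘ₗ h, ?_⟩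
    intro x
    rw [LinearMap.comp_apply, hh x]
    exact hp (g x)
  · intro x y hxy
    apply hι0
    exact congrArg Subtype.val hxy
  · intro N hN hbot
    have h1 : N.map M.subtype ≤ M := by
      rintro _ ⟨y, -, rfl⟩
      exact y.2
    have h2 : N.map M.subtype ≠ ⊥ := by
      intro h
      apply hN
      rw [eq_bot_iff]
      intro y hy
      have h3 : (y : E0) ∈ N.map M.subtype := ⟨y, hy, rfl⟩
      rw [h] at h3
      exact Subtype.ext ((Submodule.mem_bot A).mp h3)
    apply hM.prop.2 _ h1 h2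
    rw [eq_bot_iff]
    rintro _ ⟨⟨y, hy, rfl⟩, ⟨x, hx⟩⟩
    have h3 : y ∈ N ⊓ LinearMap.range (LinearMap.codRestrict M ι0 (fun x => hRM ⟨x, rfl⟩)) :=
      ⟨hy, ⟨x, Subtype.ext hx⟩⟩
    rw [hbot] at h3
    rw [(Submodule.mem_bot A).mp h3]
    simp

end Pool.MP_9c7981_al.H7
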