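import Mathlib

/-!
# The transfinite trace lemma

`V` semisimple, `S` simple, `P` a composition-closed class of endomorphisms of `V` such that for every
nonzero `f : V → S` some `v ∘ f` with `v ≠ 0` lies in `P`.  Then some `v ∘ f` in `P` has `f ∘ v ≠ 0`.
-/

set_option autoImplicit false
universe u

namespace Pool.MP_9c7981_al.H7

open Function

theorem lemmaT {A : Type*} [Ring A] {V S : Type u} [AddCommGroup V] [Module A V]
    [AddCommGroup S] [Module A S] [IsSemisimpleModule A V] [IsSimpleModule A S]
    (P : (V →ₗ[A] V) → Prop) (hP : ∀ g h, P g → P h → P (g ∘ₗ h))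
    (hex : ∀ f : V →ₗ[A] S, f ≠ 0 → ∃ v : S →ₗ[A] V, v ≠ 0 ∧ P (v ∘ₗ f))
    (f0 : V →ₗ[A] S) (hf0 : f0 ≠ 0) :
    ∃ (f : V →ₗ[A] S) (v : S →ₗ[A] V), P (v ∘ₗ f) ∧ f ∘ₗ v ≠ 0 := by
  classical
  by_contra Hc
  have H : ∀ (f : V →ₗ[A] S) (v : S →ₗ[A] V), P (v ∘ₗ f) → f ∘ₗ v = 0 := by
    intro f v h
    by_contra h'
    exact Hc ⟨f, v, h, h'⟩
  choose v hv0 hvP using hex
  let F := {f : V →ₗ[A] S // f ≠ 0}
  let w : F → (S →ₗ[A] V) := fun f => v f.1 f.2
  have hw0 : ∀ f : F, w f ≠ 0 := fun f => hv0 f.1 f.2
  have hwP : ∀ f : F, P (w f ∘ₗ f.1) := fun f => hvP f.1 f.2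
  have hself : ∀ f : F, f.1 ∘ₗ w f = 0 := fun f => H _ _ (hwP f)
  have anti : ∀ f g : F, g.1 ∘ₗ w f ≠ 0 → f.1 ∘ₗ w g = 0 := by
    intro f g hgf
    have h1 : P ((w g ∘ₗ g.1) ∘ₗ (w f ∘ₗ f.1)) := hP _ _ (hwP g) (hwP f)
    have h2 : (w g ∘ₗ g.1) ∘ₗ (w f ∘ₗ f.1) = (w g ∘ₗ (g.1 ∘ₗ w f)) ∘ₗ f.1 := by
      ext x; rfl
    rw [h2] at h1
    have h3 := H _ _ h1
    have hb := LinearMap.bijective_of_ne_zero hgf
    ext s
    obtain ⟨t, rfl⟩ := hb.2 s
    have := LinearMap.congr_fun h3 t
    exact this
  -- transfinite recursion
  let step : (α : Ordinal.{u}) → ((β : Ordinal.{u}) → β < α → F) → F := fun α G' =>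
    if h : ∃ f : F, ∀ (β : Ordinal.{u}) (hβ : β < α), f.1 ∘ₗ w (G' β hβ) ≠ 0 then h.choose
    else ⟨f0, hf0⟩
  let G : Ordinal.{u} → F := WellFounded.fix (Ordinal.lt_wf) step
  have hG : ∀ α, G α = step α (fun β _ => G β) := fun α => WellFounded.fix_eq _ _ _
  have main : ∀ α : Ordinal.{u}, ∀ β < α, (G α).1 ∘ₗ w (G β) ≠ 0 := by
    intro α
    induction α using Ordinal.induction with
    | h α ih =>
      have hexi : ∃ f : F, ∀ (β : Ordinal.{u}) (hβ : β < α), f.1 ∘ₗ w (G β) ≠ 0 := by
        by_cases hne : ∃ β : Ordinal.{u}, β < α
        · let Φ : (Set.Iio α →₀ S) →ₗ[A] V := Finsupp.lsum ℕ (fun β => w (G β.1))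
          have hΦ : Injective Φ := by
            rw [← LinearMap.ker_eq_bot, LinearMap.ker_eq_bot']
            intro x hx
            by_contra hx0
            have hsup : x.support.Nonempty := by
              rw [Finset.nonempty_iff_ne_empty]
              intro h
              exact hx0 (Finsupp.support_eq_empty.mp h)
            have hΦx : Φ x = ∑ β ∈ x.support, w (G β.1) (x β) := by
              simp only [Φ, Finsupp.lsum_apply]
              rfl
            set b0 := x.support.min' hsup with hb0
            have hb0mem : b0 ∈ x.support := Finset.min'_mem _ _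
            have hxb0 : x b0 ≠ 0 := Finsupp.mem_support_iff.mp hb0mem
            by_cases hrest : (x.support.erase b0).Nonempty
            · set b1 := (x.support.erase b0).min' hrest with hb1
              have hb1mem : b1 ∈ x.support.erase b0 := Finset.min'_mem _ _
              have hb01 : b0 < b1 := by
                have h1 : b0 ≤ b1 := Finset.min'_le _ _ (Finset.mem_of_mem_erase hb1mem)
                exact lt_of_le_of_ne h1 (Finset.ne_of_mem_erase hb1mem).symm
              have hz : (G b1.1).1 (Φ x) = 0 := by rw [hx]; simp
              rw [hΦx, map_sum] at hz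
              have hsingle : ∑ β ∈ x.support, (G b1.1).1 (w (G β.1) (x β)) =
                  (G b1.1).1 (w (G b0.1) (x b0)) := by
                apply Finset.sum_eq_single b0
                · intro b hb hbne
                  have hbmem : b ∈ x.support.erase b0 := Finset.mem_erase.mpr ⟨hbne, hb⟩
                  have hle : b1 ≤ b := Finset.min'_le _ _ hbmem
                  rcases eq_or_lt_of_le hle with heq | hlt
                  · rw [← heq]
                    exact LinearMap.congr_fun (hself (G b1.1)) _
                  · have h1 := ih b.1 b.2 b1.1 hlt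
                    have h2 := anti _ _ h1
                    exact LinearMap.congr_fun h2 _
                · intro h
                  exact absurd hb0mem h
              rw [hsingle] at hz
              have hinj := LinearMap.injective_of_ne_zero (ih b1.1 b1.2 b0.1 hb01)
              apply hxb0
              apply hinj
              rw [map_zero]
              exact hz
            · have hs : x.support = {b0} := by
                apply Finset.Subset.antisymm
                · intro b hb
                  rw [Finset.mem_singleton]
                  by_contra hne'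
                  exact hrest ⟨b, Finset.mem_erase.mpr ⟨hne', hb⟩⟩
                · intro b hb
                  rw [Finset.mem_singleton] at hb
                  rw [hb]; exact hb0mem
              rw [hΦx, hs, Finset.sum_singleton] at hx
              have hinj := LinearMap.injective_of_ne_zero (hw0 (G b0.1))
              apply hxb0
              apply hinj
              rw [map_zero]
              exact hx
          let ψ : (Set.Iio α →₀ S) →ₗ[A] S := Finsupp.lsum ℕ (fun _ => LinearMap.id)
          obtain ⟨f, hf⟩ := IsSemisimpleModule.extension_property Φ hΦ ψ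
          have hfw : ∀ (β : Ordinal.{u}) (hβ : β < α) (s : S), f (w (G β) s) = s := by
            intro β hβ s
            have h1 := LinearMap.congr_fun hf (Finsupp.single ⟨β, hβ⟩ s)
            simp only [LinearMap.comp_apply, Φ, ψ, Finsupp.lsum_single, LinearMap.id_apply] at h1
            exact h1
          have hne0 : ∀ (β : Ordinal.{u}) (hβ : β < α), f ∘ₗ w (G β) ≠ 0 := by
            intro β hβ h0
            haveI := IsSimpleModule.nontrivial A S
            obtain ⟨s, hs⟩ := exists_ne (0 : S)
            apply hs
            rw [← hfw β hβ s]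
            exact LinearMap.congr_fun h0 s
          obtain ⟨β, hβ⟩ := hne
          have hfne : f ≠ 0 := by
            intro h0
            apply hne0 β hβ
            rw [h0]
            ext s; rfl
          exact ⟨⟨f, hfne⟩, hne0⟩
        · refine ⟨⟨f0, hf0⟩, ?_⟩
          intro β hβ
          exact absurd ⟨β, hβ⟩ hne
      have hstep : G α = hexi.choose := by
        rw [hG α]
        simp only [step]
        rw [dif_pos hexi]
      rw [hstep]
      exact hexi.choose_spec
  have hinj : Injective G := by
    intro α β hab
    rcases lt_trichotomy α β with h | h | h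
    · exfalso
      have := main β α h
      rw [← hab] at this
      exact this (hself _)
    · exact h
    · exfalso
      have := main α β h
      rw [hab] at this
      exact this (hself _)
  exact not_injective_of_ordinal G hinj

end Pool.MP_9c7981_al.H7
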