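import Pool.Agent.Lib.MP_9c7981_al_H7.Defs
import Pool.Agent.Lib.MP_9c7981_al_H7.Envelope
import Pool.Agent.Lib.MP_9c7981_al_H7.LemmaT

/-!
# Basic facts: left multiplications, the socle, finite density, rank one elements
-/

set_option autoImplicit false
universe u v

namespace Pool.MP_9c7981_al.H7

open Function

section
variable {R : Type u} [Ring R]

/-- left multiplication by `a`, as an endomorphism of the right module `R_R` -/
def lam (a : R) : R →ₗ[Rᵐᵒᵖ] R where
  toFun x := a * x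
  map_add' x y := mul_add a x y
  map_smul' r x := by
    simp only [MulOpposite.smul_eq_mul_unop, RingHom.id_apply, mul_assoc]

@[simp] theorem lam_apply (a x : R) : lam a x = a * x := rfl

theorem op_smul (r x : R) : (MulOpposite.op r) • x = x * r := rfl

theorem right_mul_mem (M : Submodule Rᵐᵒᵖ R) {x : R} (hx : x ∈ M) (r : R) : x * r ∈ M :=
  M.smul_mem (MulOpposite.op r) hx

/-- maps from simple modules into `R` land in the socle -/
theorem mem_socle_of_simple {S : Type*} [AddCommGroup S] [Module Rᵐᵒᵖ S]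
    [IsSimpleModule Rᵐᵒᵖ S] (g : S →ₗ[Rᵐᵒᵖ] R) (s : S) : g s ∈ rightSocle R := by
  rcases LinearMap.injective_or_eq_zero g with h | h
  · have e := LinearEquiv.ofInjective g h
    have hs : IsSimpleModule Rᵐᵒᵖ (LinearMap.range g) := IsSimpleModule.congr e.symm
    have ha : IsAtom (LinearMap.range g) := isSimpleModule_iff_isAtom.mp hs
    exact (le_sSup (show LinearMap.range g ∈ {J : Submodule Rᵐᵒᵖ R | IsAtom J} from ha)) ⟨s, rfl⟩
  · rw [h]; exact Submodule.zero_mem _

theorem atom_le_socle {K : Submodule Rᵐᵒᵖ R} (hK : IsAtom K) : K ≤ rightSocle R :=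
  le_sSup hK

theorem socle_invariant (f : R →ₗ[Rᵐᵒᵖ] R) {x : R} (hx : x ∈ rightSocle R) :
    f x ∈ rightSocle R := by
  have h : rightSocle R ≤ (rightSocle R).comap f := by
    apply sSup_le
    intro K hK y hy
    have : IsSimpleModule Rᵐᵒᵖ K := isSimpleModule_iff_isAtom.mpr hK
    exact mem_socle_of_simple (f ∘ₗ K.subtype) ⟨y, hy⟩
  exact h hx

instance : IsSemisimpleModule Rᵐᵒᵖ (rightSocle R) := by
  have h : rightSocle R = ⨆ K ∈ {J : Submodule Rᵐᵒᵖ R | IsAtom J}, K := sSup_eq_iSup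
  rw [h]
  apply isSemisimpleModule_biSup_of_isSemisimpleModule_submodule
  intro K hK
  have : IsSimpleModule Rᵐᵒᵖ K := isSimpleModule_iff_isAtom.mpr hK
  infer_instance

/-- left multiplication on the socle -/
def lamV (a : R) : (rightSocle R) →ₗ[Rᵐᵒᵖ] (rightSocle R) :=
  (lam a).restrict (fun _ hx => socle_invariant _ hx)

@[simp] theorem lamV_coe (a : R) (x : rightSocle R) : ((lamV a x : rightSocle R) : R) = a * x := rfl

theorem lamV_mul (a b : R) : lamV (a * b) = lamV a ∘ₗ lamV b := by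
  ext x
  simp [mul_assoc]

theorem lamV_add (a b : R) : lamV (a + b) = lamV a + lamV b := by
  ext x
  simp [add_mul]

theorem lamV_one : lamV (1 : R) = LinearMap.id := by
  ext x
  simp

theorem lamV_zero : lamV (0 : R) = 0 := by
  ext x
  simp

theorem lamV_neg (a : R) : lamV (-a) = - lamV a := by
  ext x
  simp

theorem lamV_sub (a b : R) : lamV (a - b) = lamV a - lamV b := by
  ext x
  simp [sub_mul]

theorem lamV_pow (a : R) (n : ℕ) : lamV (a ^ n) = (lamV a) ^ n := by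
  induction n with
  | zero => rw [pow_zero, pow_zero, lamV_one]; rfl
  | succ n ih => rw [pow_succ, pow_succ, lamV_mul, ih]; rfl

theorem mem_annSocle_iff {a : R} : a ∈ annSocle R ↔ lamV a = 0 := by
  constructor
  · intro h
    ext x
    simpa using h x x.2
  · intro h x hx
    have := LinearMap.congr_fun h ⟨x, hx⟩
    exact congrArg Subtype.val this

end

/-- the only consequence of tightness that we use -/
def FinDense (R : Type u) [Ring R] : Prop :=
  ∀ (X : Type u) [AddCommGroup X] [Module Rᵐᵒᵖ X] (j : X →ₗ[Rᵐᵒᵖ] R), Injective j →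
    ∀ g : X →ₗ[Rᵐᵒᵖ] R, ∃ F : Finset R, ∀ x, g x = 0 ↔ ∀ a ∈ F, a * j x = 0

theorem finDense_of_tight {R : Type u} [Ring R] (hT : RightGenRTight R) : FinDense R := by
  classical
  obtain ⟨E, i1, i2, ι, hE, hι, hess⟩ := exists_injective_envelope Rᵐᵒᵖ R
  intro X _ _ j hj g
  obtain ⟨Φ, hΦ⟩ := hE.out j hj (ι ∘ₗ g)
  obtain ⟨I, f, hf⟩ := hT E hE ι hι hess (Φ 1)
  let y : Submodule.span Rᵐᵒᵖ {Φ 1} := ⟨Φ 1, Submodule.mem_span_singleton_self _⟩
  refine ⟨(f y).support.image (f y), ?_⟩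
  intro x
  have h1 : Φ (j x) = (MulOpposite.op (j x)) • Φ 1 := by
    rw [← map_smul]
    congr 1
    rw [op_smul, one_mul]
  have h2 : g x = 0 ↔ (MulOpposite.op (j x)) • y = 0 := by
    rw [← hι.eq_iff, map_zero]
    have : ι (g x) = Φ (j x) := (hΦ x).symm
    rw [this, h1]
    constructor
    · intro h
      exact Subtype.ext h
    · intro h
      exact congrArg Subtype.val h
  rw [h2, ← hf.eq_iff, map_zero, map_smul]
  constructor
  · intro h a ha
    obtain ⟨i, -, rfl⟩ := Finset.mem_image.mp ha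
    have := DFunLike.congr_fun h i
    simpa using this
  · intro h
    ext i
    rw [Finsupp.smul_apply, op_smul]
    by_cases hi : i ∈ (f y).support
    · exact h _ (Finset.mem_image_of_mem _ hi)
    · rw [Finsupp.notMem_support_iff.mp hi, zero_mul]; rfl

/-- factorisation through a surjection onto a simple module -/
theorem exists_factor {A : Type*} [Ring A] {V S W : Type*} [AddCommGroup V] [Module A V]
    [AddCommGroup S] [Module A S] [AddCommGroup W] [Module A W]
    (f : V →ₗ[A] S) (hf : Surjective f) (g : V →ₗ[A] W) (h : ∀ x, f x = 0 → g x = 0) :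
    ∃ v : S →ₗ[A] W, g = v ∘ₗ f := by
  refine ⟨(LinearMap.ker f).liftQ g (fun x hx => h x hx) ∘ₗ
    (f.quotKerEquivOfSurjective hf).symm.toLinearMap, ?_⟩
  ext x
  simp only [LinearMap.comp_apply, LinearEquiv.coe_coe]
  have : (f.quotKerEquivOfSurjective hf).symm (f x) = Submodule.Quotient.mk x := by
    rw [LinearEquiv.symm_apply_eq]
    rfl
  rw [this]
  rfl

section
variable {R : Type u} [Ring R]

/-- an element of `R` with prescribed kernel on the socle, for a finite set -/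
theorem exists_finset_ker (hD : FinDense R) (Y : Submodule Rᵐᵒᵖ (rightSocle R)) :
    ∃ F : Finset R, ∀ x : rightSocle R, x ∈ Y ↔ ∀ a ∈ F, lamV a x = 0 := by
  obtain ⟨Y', hY'⟩ := exists_isCompl Y
  let π : (rightSocle R) →ₗ[Rᵐᵒᵖ] Y' := Submodule.linearProjOfIsCompl Y' Y hY'.symm
  have hπ : ∀ x, π x = 0 ↔ x ∈ Y := fun x => Submodule.linearProjOfIsCompl_apply_eq_zero_iff _
  obtain ⟨F, hF⟩ := hD (rightSocle R) (rightSocle R).subtype (Submodule.injective_subtype _)
    ((rightSocle R).subtype ∘ₗ Y'.subtype ∘ₗ π)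
  refine ⟨F, fun x => ?_⟩
  rw [← hπ]
  have h1 : π x = 0 ↔ ((rightSocle R).subtype ∘ₗ Y'.subtype ∘ₗ π) x = 0 := by
    simp only [LinearMap.comp_apply, Submodule.subtype_apply]
    constructor
    · intro h; rw [h]; rfl
    · intro h
      exact Subtype.ext (Subtype.ext h)
  rw [h1, hF x]
  constructor
  · intro h a ha
    exact Subtype.ext (h a ha)
  · intro h a ha
    exact congrArg Subtype.val (h a ha)

theorem exists_rank_one (hD : FinDense R) {S : Type u} [AddCommGroup S] [Module Rᵐᵒᵖ S]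
    [IsSimpleModule Rᵐᵒᵖ S] (f : (rightSocle R) →ₗ[Rᵐᵒᵖ] S) (hf : f ≠ 0) :
    ∃ (a : R) (v : S →ₗ[Rᵐᵒᵖ] (rightSocle R)), v ≠ 0 ∧ lamV a = v ∘ₗ f := by
  obtain ⟨F, hF⟩ := exists_finset_ker hD (LinearMap.ker f)
  have h0 : ∃ x0, f x0 ≠ 0 := by
    by_contra h
    push Not at h
    exact hf (LinearMap.ext h)
  obtain ⟨x0, hx0⟩ := h0
  have h1 : ∃ a ∈ F, lamV a x0 ≠ 0 := by
    by_contra h
    push Not at h
    exact hx0 ((hF x0).mpr h)
  obtain ⟨a, haF, ha⟩ := h1
  obtain ⟨v, hv⟩ := exists_factor f (LinearMap.surjective_of_ne_zero hf) (lamV a)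
    (fun x hx => (hF x).mp hx a haF)
  refine ⟨a, v, ?_, hv⟩
  rintro rfl
  apply ha
  rw [hv]; rfl

/-- every simple module is a quotient of the socle (right Kasch) -/
theorem exists_socle_section (hK : RightKasch R) (S : Type u) [AddCommGroup S] [Module Rᵐᵒᵖ S]
    [hS : IsSimpleModule Rᵐᵒᵖ S] :
    ∃ (s : S →ₗ[Rᵐᵒᵖ] (rightSocle R)) (f : (rightSocle R) →ₗ[Rᵐᵒᵖ] S), f ∘ₗ s = LinearMap.id := by
  obtain ⟨e, he⟩ := hK S hS
  let s : S →ₗ[Rᵐᵒᵖ] (rightSocle R) := e.codRestrict _ (fun x => mem_socle_of_simple e x)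
  have hs : Injective s := by
    intro x y hxy
    exact he (congrArg Subtype.val hxy)
  obtain ⟨f, hf⟩ := IsSemisimpleModule.extension_property s hs LinearMap.id
  exact ⟨s, f, hf⟩

theorem id_ne_zero' (S : Type u) [AddCommGroup S] [Module Rᵐᵒᵖ S] [IsSimpleModule Rᵐᵒᵖ S] :
    (LinearMap.id : S →ₗ[Rᵐᵒᵖ] S) ≠ 0 := by
  have := IsSimpleModule.nontrivial Rᵐᵒᵖ S
  obtain ⟨x, hx⟩ := exists_ne (0 : S)
  intro h
  exact hx (LinearMap.congr_fun h x)

/-- The rank one element with nonzero trace. -/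
theorem exists_good (hK : RightKasch R) (hD : FinDense R) (S : Type u) [AddCommGroup S]
    [Module Rᵐᵒᵖ S] [IsSimpleModule Rᵐᵒᵖ S] :
    ∃ (a : R) (f : (rightSocle R) →ₗ[Rᵐᵒᵖ] S) (v : S →ₗ[Rᵐᵒᵖ] (rightSocle R)),
      lamV a = v ∘ₗ f ∧ f ∘ₗ v ≠ 0 := by
  obtain ⟨s, f0, hf0⟩ := exists_socle_section hK S
  have hf0' : f0 ≠ 0 := by
    rintro rfl
    exact id_ne_zero' S hf0.symm
  obtain ⟨f, v, ⟨a, ha⟩, hfv⟩ := lemmaT (fun g => ∃ a : R, lamV a = g)
    (by
      rintro g h ⟨a, rfl⟩ ⟨b, rfl⟩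
      exact ⟨a * b, lamV_mul a b⟩)
    (by
      intro f hf
      obtain ⟨a, v, hv, hav⟩ := exists_rank_one hD f hf
      exact ⟨v, hv, a, hav⟩) f0 hf0'
  exact ⟨a, f, v, ha, hfv⟩

end

end Pool.MP_9c7981_al.H7
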