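import Mathlib

/-!
# Tarski's almost disjoint families
-/

set_option autoImplicit false
universe u

namespace Pool.MP_9c7981_al.H7

open Function Cardinal

theorem tarski (T : Type u) [Infinite T] : ∃ (μ : Cardinal.{u}) (ι : Type u) (A : ι → Set T),
    ℵ₀ ≤ μ ∧ #T < #ι ∧ (∀ i, μ ≤ #(A i)) ∧ (∀ i j, i ≠ j → #(A i ∩ A j : Set T) < μ) := by
  classical
  let s : Set Cardinal.{u} := {c | #T < 2 ^ c}
  have hs : #T ∈ s := cantor _
  let μ := sInf s
  have hμ : #T < 2 ^ μ := csInf_mem (s := s) ⟨_, hs⟩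
  have hμT : μ ≤ #T := csInf_le' hs
  have hlt : ∀ c < μ, 2 ^ c ≤ #T := by
    intro c hc
    by_contra h
    exact notMem_of_lt_csInf' hc (not_le.mp h)
  have hT : ℵ₀ ≤ #T := aleph0_le_mk T
  have hμinf : ℵ₀ ≤ μ := by
    by_contra h
    have h1 : (2 : Cardinal.{u}) ^ μ < ℵ₀ := power_lt_aleph0 (natCast_lt_aleph0 (n := 2)) (not_le.mp h)
    exact absurd (lt_of_le_of_lt hT hμ) (not_lt.mpr h1.le)
  let O := μ.ord.ToType
  have hO : #O = μ := mk_ord_toType μ
  let N := Σ o : O, (Set.Iio o → Bool)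
  have hN : #N ≤ #T := by
    have h1 : #N = Cardinal.sum (fun o : O => (2 : Cardinal.{u}) ^ #(Set.Iio o)) := by
      rw [mk_sigma]
      congr 1
      ext o
      simp
    rw [h1]
    have h2 : ∀ o : O, (2 : Cardinal.{u}) ^ #(Set.Iio o) ≤ #T :=
      fun o => hlt _ (mk_Iio_toType_ord_lt o)
    calc Cardinal.sum (fun o : O => (2 : Cardinal.{u}) ^ #(Set.Iio o))
        ≤ Cardinal.sum (fun _ : O => #T) := sum_le_sum _ _ h2
      _ = #O * #T := by simp
      _ ≤ #T * #T := by rw [hO]; exact mul_le_mul_left hμT _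
      _ = #T := mul_eq_self hT
  obtain ⟨e⟩ := hN
  let node : (O → Bool) → O → N := fun b o => ⟨o, fun i => b i⟩
  have hnode : ∀ b, Injective (fun o => e (node b o)) := by
    intro b o o' h
    have := e.injective h
    exact congrArg Sigma.fst this
  refine ⟨μ, O → Bool, fun b => Set.range (fun o => e (node b o)), hμinf, ?_, ?_, ?_⟩
  · have : #(O → Bool) = 2 ^ μ := by simp [hO]
    rw [this]; exact hμ
  · intro b
    rw [mk_range_eq _ (hnode b), hO]
  · intro b b' hne
    have h1 : ∃ i, b i ≠ b' i := by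
      by_contra h
      push Not at h
      exact hne (funext h)
    obtain ⟨i, hi⟩ := h1
    have h2 : (Set.range (fun o => e (node b o)) ∩ Set.range (fun o => e (node b' o)) : Set T) ⊆
        (fun o => e (node b o)) '' (Set.Iic i) := by
      rintro _ ⟨⟨o, rfl⟩, ⟨o', ho'⟩⟩
      refine ⟨o, ?_, rfl⟩
      have h3 : node b' o' = node b o := e.injective ho'
      have h4 : o' = o := congrArg Sigma.fst h3
      subst h4
      have h5 : (fun i : Set.Iio o' => b' i) = (fun i : Set.Iio o' => b i) :=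
        eq_of_heq (Sigma.mk.inj h3).2
      by_contra hlt'
      have hio : i < o' := not_le.mp hlt'
      exact hi (congrFun h5 ⟨i, hio⟩).symm
    calc #(Set.range (fun o => e (node b o)) ∩ Set.range (fun o => e (node b' o)) : Set T)
        ≤ #((fun o => e (node b o)) '' (Set.Iic i)) := mk_le_mk_of_subset h2
      _ ≤ #(Set.Iic i) := mk_image_le
      _ ≤ #(Set.Iio i) + 1 := by
          rw [← Set.Iio_insert]
          exact mk_insert_le
      _ < μ := add_lt_of_lt hμinf (mk_Iio_toType_ord_lt i) (lt_of_lt_of_le one_lt_aleph0 hμinf)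

end Pool.MP_9c7981_al.H7
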