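import Pool.Agent.Lib.MP_9c7981_al_H7.FiniteCase
import Pool.Agent.Lib.MP_9c7981_al_H7.Tarski

/-!
# Arbitrarily many simple modules
-/

set_option autoImplicit false
universe u v

namespace Pool.MP_9c7981_al.H7

open Function Cardinal

section
variable {R : Type u} [Ring R]

/-- the set of classes on whose homogeneous component `a` acts nontrivially -/
def supp (a : R) : Set (Cls R) := {q | ∃ w : Sim q →ₗ[Rᵐᵒᵖ] (rightSocle R), lamV a ∘ₗ w ≠ 0}

theorem supp_zero_of_lamV {a : R} (h : lamV a = 0) : supp a = ∅ := by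
  ext q
  simp only [supp, Set.mem_ofPred_eq, Set.mem_empty_iff_false, iff_false, not_exists, not_not]
  intro w
  rw [h, LinearMap.zero_comp]

theorem supp_add (a b : R) : supp (a + b) ⊆ supp a ∪ supp b := by
  rintro q ⟨w, hw⟩
  by_cases h : lamV a ∘ₗ w = 0
  · right
    refine ⟨w, ?_⟩
    intro h'
    apply hw
    rw [lamV_add, LinearMap.add_comp, h, h', add_zero]
  · left
    exact ⟨w, h⟩

theorem supp_mul_left (r a : R) : supp (r * a) ⊆ supp a := by
  rintro q ⟨w, hw⟩
  refine ⟨w, ?_⟩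
  intro h
  apply hw
  rw [lamV_mul, LinearMap.comp_assoc, h, LinearMap.comp_zero]

theorem supp_mul_right (r a : R) : supp (a * r) ⊆ supp a := by
  rintro q ⟨w, hw⟩
  refine ⟨lamV r ∘ₗ w, ?_⟩
  intro h
  apply hw
  rw [lamV_mul, LinearMap.comp_assoc, h]

/-- the elements of support of cardinality `< μ` -/
def smallIdeal (R : Type u) [Ring R] (μ : Cardinal.{u}) (hμ : ℵ₀ ≤ μ) : TwoSidedIdeal R :=
  mkIdeal {a : R | #(supp a) < μ}
    (by
      rw [Set.mem_ofPred_eq, supp_zero_of_lamV lamV_zero]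
      simpa using lt_of_lt_of_le aleph0_pos hμ)
    (by
      intro x y hx hy
      rw [Set.mem_ofPred_eq] at *
      calc #(supp (x + y)) ≤ #(supp x ∪ supp y : Set (Cls R)) := mk_le_mk_of_subset (supp_add x y)
        _ ≤ #(supp x) + #(supp y) := mk_union_le _ _
        _ < μ := add_lt_of_lt hμ hx hy)
    (by
      intro r x hx
      exact lt_of_le_of_lt (mk_le_mk_of_subset (supp_mul_left r x)) hx)
    (by
      intro r x hx
      exact lt_of_le_of_lt (mk_le_mk_of_subset (supp_mul_right r x)) hx)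

theorem mem_smallIdeal {μ : Cardinal.{u}} {hμ : ℵ₀ ≤ μ} {a : R} :
    a ∈ smallIdeal R μ hμ ↔ #(supp a) < μ := by
  unfold smallIdeal mkIdeal
  rw [TwoSidedIdeal.mem_mk']
  rfl

/-- singular elements kill the socle -/
theorem singular_kills {z : R} (hz : z ∈ rightSingular R) : lamV z = 0 := by
  obtain ⟨N, hN, hzN⟩ := hz
  have h : rightSocle R ≤ N := by
    apply sSup_le
    intro K hK
    have h1 := hN K hK.1
    have h2 : N ⊓ K = K := by
      rcases hK.le_iff.mp (inf_le_right : N ⊓ K ≤ K) with h' | h'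
      · exact absurd h' h1
      · exact h'
    rw [← h2]
    exact inf_le_left
  ext x
  exact hzN x (h x.2)

theorem singular_mem_smallIdeal {μ : Cardinal.{u}} (hμ : ℵ₀ ≤ μ) {z : R}
    (hz : z ∈ rightSingular R) : z ∈ smallIdeal R μ hμ := by
  rw [mem_smallIdeal, supp_zero_of_lamV (singular_kills hz)]
  simpa using lt_of_lt_of_le aleph0_pos hμ

omit [Ring R] in
theorem small_biUnion {μ : Cardinal.{u}} (hμ : ℵ₀ ≤ μ) {T : Type u} (F : Finset R)
    (A : R → Set T) (h : ∀ a ∈ F, #(A a) < μ) : #(⋃ a ∈ F, A a : Set T) < μ := by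
  classical
  induction F using Finset.induction_on with
  | empty =>
    simpa using lt_of_lt_of_le aleph0_pos hμ
  | insert a F ha ih =>
    rw [Finset.set_biUnion_insert]
    refine lt_of_le_of_lt (mk_union_le _ _) (add_lt_of_lt hμ ?_ ?_)
    · exact h a (Finset.mem_insert_self _ _)
    · exact ih (fun b hb => h b (Finset.mem_insert_of_mem hb))

/-- one step of the construction -/
theorem step (hD : FinDense R) {μ : Cardinal.{u}} (hμ : ℵ₀ ≤ μ) (A : Set (Cls R)) (hA : μ ≤ #A)
    (s : ∀ q : Cls R, Sim q →ₗ[Rᵐᵒᵖ] (rightSocle R)) (hs : ∀ q ∈ A, s q ≠ 0) :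
    ∃ (a : R) (f : ∀ q : Cls R, (rightSocle R) →ₗ[Rᵐᵒᵖ] Sim q),
      supp a ⊆ A ∧ μ ≤ #(supp a) ∧ (∀ q ∈ supp a, lamV a ∘ₗ s q ≠ 0) ∧
      (∀ q ∈ A, ∀ w : Sim q →ₗ[Rᵐᵒᵖ] (rightSocle R),
        lamV a ∘ₗ w = lamV a ∘ₗ s q ∘ₗ f q ∘ₗ w) := by
  classical
  have hf : ∀ q : Cls R, ∃ f : (rightSocle R) →ₗ[Rᵐᵒᵖ] Sim q, q ∈ A → f ∘ₗ s q = LinearMap.id := by
    intro q
    by_cases hq : q ∈ A
    · obtain ⟨f, hf⟩ := IsSemisimpleModule.extension_property (s q)
        (LinearMap.injective_of_ne_zero (hs q hq)) LinearMap.id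
      exact ⟨f, fun _ => hf⟩
    · exact ⟨0, fun h => absurd h hq⟩
  choose f hf using hf
  let Y : Submodule Rᵐᵒᵖ (rightSocle R) := ⨅ q ∈ A, LinearMap.ker (f q)
  obtain ⟨F, hF⟩ := exists_finset_ker hD Y
  have hYmem : ∀ x, x ∈ Y ↔ ∀ q ∈ A, f q x = 0 := by
    intro x
    simp only [Y, Submodule.mem_iInf, LinearMap.mem_ker]
  -- maps into `Y`
  have hYw : ∀ (q : Cls R) (w : Sim q →ₗ[Rᵐᵒᵖ] (rightSocle R)), (q ∈ A → f q ∘ₗ w = 0) →
      ∀ a ∈ F, lamV a ∘ₗ w = 0 := by
    intro q w hw a ha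
    apply LinearMap.ext
    intro t
    refine (hF (w t)).mp ?_ a ha
    rw [hYmem]
    intro q' hq'
    by_cases h : q = q'
    · subst h
      exact LinearMap.congr_fun (hw hq') t
    · exact LinearMap.congr_fun (map_eq_zero_of_ne h (f q' ∘ₗ w)) t
  have hfac : ∀ a ∈ F, ∀ q ∈ A, ∀ w : Sim q →ₗ[Rᵐᵒᵖ] (rightSocle R),
      lamV a ∘ₗ w = lamV a ∘ₗ s q ∘ₗ f q ∘ₗ w := by
    intro a ha q hq w
    have h1 := hYw q (w - s q ∘ₗ f q ∘ₗ w) (by
      intro _
      apply LinearMap.ext
      intro t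
      have h2 := LinearMap.congr_fun (hf q hq) (f q (w t))
      simp only [LinearMap.comp_apply, LinearMap.id_apply] at h2
      simp only [LinearMap.comp_apply, LinearMap.sub_apply, map_sub, h2, sub_self,
        LinearMap.zero_apply]) a ha
    apply LinearMap.ext
    intro t
    have h2 := LinearMap.congr_fun h1 t
    rw [LinearMap.comp_apply, LinearMap.sub_apply, map_sub, LinearMap.zero_apply, sub_eq_zero] at h2
    exact h2
  have hsuppA : ∀ a ∈ F, supp a ⊆ A := by
    intro a ha q hq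
    by_contra hqA
    obtain ⟨w, hw⟩ := hq
    exact hw (hYw q w (fun h => absurd h hqA) a ha)
  have hsupps : ∀ a ∈ F, ∀ q ∈ supp a, lamV a ∘ₗ s q ≠ 0 := by
    intro a ha q hq h0
    obtain ⟨w, hw⟩ := hq
    apply hw
    rw [hfac a ha q (hsuppA a ha ⟨w, hw⟩) w, ← LinearMap.comp_assoc, h0, LinearMap.zero_comp]
  have hcover : A ⊆ ⋃ a ∈ F, supp a := by
    intro q hq
    by_contra hc
    simp only [Set.mem_iUnion, not_exists] at hc
    have h1 : ∀ t, s q t ∈ Y := by
      intro t
      rw [hF]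
      intro a ha
      by_contra h
      apply hc a ha
      refine ⟨s q, ?_⟩
      intro h0
      exact h (LinearMap.congr_fun h0 t)
    have := IsSimpleModule.nontrivial Rᵐᵒᵖ (Sim q)
    obtain ⟨t, ht⟩ := exists_ne (0 : Sim q)
    apply ht
    have h2 := (hYmem _).mp (h1 t) q hq
    have h3 := LinearMap.congr_fun (hf q hq) t
    rw [LinearMap.comp_apply, h2] at h3
    exact h3.symm
  have hbig : ∃ a ∈ F, μ ≤ #(supp a) := by
    by_contra hc
    push Not at hc
    have h1 := small_biUnion hμ F (fun a => supp a) hc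
    exact absurd (lt_of_le_of_lt (mk_le_mk_of_subset hcover) h1) (not_lt.mpr hA)
  obtain ⟨a, ha, hbig⟩ := hbig
  exact ⟨a, f, hsuppA a ha, hbig, hsupps a ha, hfac a ha⟩

/-- the data of the construction at stage `n` -/
structure St (R : Type u) [Ring R] (μ : Cardinal.{u}) where
  A : Set (Cls R)
  s : ∀ q : Cls R, Sim q →ₗ[Rᵐᵒᵖ] (rightSocle R)
  hA : μ ≤ #A
  hs : ∀ q ∈ A, s q ≠ 0

theorem exists_seq (hD : FinDense R) {μ : Cardinal.{u}} (hμ : ℵ₀ ≤ μ) (st0 : St R μ) :
    ∃ (A : ℕ → Set (Cls R)) (s : ℕ → ∀ q : Cls R, Sim q →ₗ[Rᵐᵒᵖ] (rightSocle R)) (a : ℕ → R)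
      (f : ℕ → ∀ q : Cls R, (rightSocle R) →ₗ[Rᵐᵒᵖ] Sim q), A 0 = st0.A ∧
      (∀ n, μ ≤ #(A n)) ∧ (∀ n, supp (a n) = A (n + 1)) ∧ (∀ n, A (n + 1) ⊆ A n) ∧
      (∀ n, ∀ q ∈ A n, s n q ≠ 0) ∧ (∀ n q, s (n + 1) q = lamV (a n) ∘ₗ s n q) ∧
      (∀ n, ∀ q ∈ A n, ∀ w : Sim q →ₗ[Rᵐᵒᵖ] (rightSocle R),
        lamV (a n) ∘ₗ w = s (n + 1) q ∘ₗ f n q ∘ₗ w) := by
  choose a f h1 h2 h3 h4 using fun st : St R μ => step hD hμ st.A st.hA st.s st.hs
  let next : St R μ → St R μ := fun st =>
    { A := supp (a st)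
      s := fun q => lamV (a st) ∘ₗ st.s q
      hA := h2 st
      hs := h3 st }
  let st : ℕ → St R μ := fun n => Nat.rec st0 (fun _ x => next x) n
  refine ⟨fun n => (st n).A, fun n => (st n).s, fun n => a (st n), fun n => f (st n), rfl,
    fun n => (st n).hA, fun n => rfl, fun n => h1 (st n), fun n => (st n).hs, fun n q => rfl, ?_⟩
  intro n q hq w
  exact h4 (st n) q hq w

theorem lemmaQ (hK : RightKasch R) (hD : FinDense R) {μ : Cardinal.{u}} (hμ : ℵ₀ ≤ μ)
    (A0 : Set (Cls R)) (hA0 : μ ≤ #A0)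
    (hnil : ∀ b ∈ radOver {x : R | x ∈ smallIdeal R μ hμ}, ∃ n : ℕ, b ^ n ∈ smallIdeal R μ hμ)
    (hweak : ∀ a : ℕ → R, (∀ i, a i ∈ radOver {x : R | x ∈ smallIdeal R μ hμ}) →
      (∀ i j, i ≤ j → ∀ r : R, a i * r * a j ∈ smallIdeal R μ hμ) →
      ∃ m : ℕ, ((List.range m).reverse.map a).prod ∈ smallIdeal R μ hμ) :
    ∃ a : R, supp a ⊆ A0 ∧ a ∉ radOver {x : R | x ∈ smallIdeal R μ hμ} := by
  by_contra hc
  push Not at hc
  choose s0 f0 hs0 using fun q : Cls R => exists_socle_section hK (Sim q)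
  have hs0' : ∀ q, s0 q ≠ 0 := by
    intro q h
    have := hs0 q
    rw [h, LinearMap.comp_zero] at this
    exact id_ne_zero' (Sim q) this.symm
  obtain ⟨A, s, a, f, hA0', hbig, hsupp, hsub, hsne, hsucc, hfac⟩ :=
    exists_seq hD hμ ⟨A0, s0, hA0, fun q _ => hs0' q⟩
  have hA0'' : A 0 = A0 := hA0'
  have hmono : ∀ i j, i ≤ j → A j ⊆ A i := by
    intro i j hij
    induction j, hij using Nat.le_induction with
    | base => exact subset_rfl
    | succ n _ ih => exact (hsub n).trans ih
  have harad : ∀ n, a n ∈ radOver {x : R | x ∈ smallIdeal R μ hμ} := by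
    intro n
    apply hc
    rw [hsupp n, ← hA0'']
    exact hmono 0 (n + 1) (Nat.zero_le _)
  -- products
  have hprod : ∀ n k q, lamV (((List.range k).reverse.map fun i => a (n + i)).prod) ∘ₗ s n q =
      s (n + k) q := by
    intro n k q
    induction k with
    | zero =>
      simp only [List.range_zero, List.reverse_nil, List.map_nil, List.prod_nil, lamV_one]
      rfl
    | succ k ih =>
      rw [List.range_succ, List.reverse_append, List.map_append, List.prod_append, lamV_mul,
        LinearMap.comp_assoc, ih]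
      simp only [List.reverse_singleton, List.map_cons, List.map_nil, List.prod_singleton]
      exact (hsucc (n + k) q).symm
  obtain ⟨m, hm⟩ := hweak a harad (by
    intro i j hij r
    by_contra hnot
    rw [mem_smallIdeal, not_lt] at hnot
    obtain ⟨k, rfl⟩ := Nat.exists_eq_add_of_le hij
    set b : R := r * ((List.range k).reverse.map fun l => a (i + 1 + l)).prod * a i with hb
    have hbrad : b ∈ radOver {x : R | x ∈ smallIdeal R μ hμ} := by
      apply mem_radOver_of_P (fun r x hx => (smallIdeal R μ hμ).mul_mem_left _ _ hx)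
      intro q hq
      exact prim_mul_left (radOver_mem_P (harad i) q hq) _
    obtain ⟨n, hn⟩ := hnil b hbrad
    rw [mem_smallIdeal] at hn
    have hsubs : supp (a i * r * a (i + k)) ⊆ supp (b ^ n) := by
      rintro q ⟨w, hw⟩
      have hq1 : q ∈ supp (a (i + k)) := by
        refine ⟨w, ?_⟩
        intro h
        apply hw
        rw [lamV_mul, LinearMap.comp_assoc, h, LinearMap.comp_zero]
      rw [hsupp] at hq1
      have hqk : q ∈ A (i + k) := hsub _ hq1
      have hqi : q ∈ A i := hmono i (i + k) (Nat.le_add_right _ _) hqk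
      -- δ
      set u := lamV r ∘ₗ s (i + k + 1) q with hu
      set δ : Sim q →ₗ[Rᵐᵒᵖ] Sim q := f i q ∘ₗ u with hδ
      have hδ0 : δ ≠ 0 := by
        intro h0
        apply hw
        rw [lamV_mul, LinearMap.comp_assoc, hfac (i + k) q hqk w, lamV_mul, LinearMap.comp_assoc]
        have h1 : lamV r ∘ₗ s (i + k + 1) q ∘ₗ f (i + k) q ∘ₗ w = u ∘ₗ f (i + k) q ∘ₗ w := rfl
        rw [h1, hfac i q hqi]
        have h2 : s (i + 1) q ∘ₗ f i q ∘ₗ u ∘ₗ f (i + k) q ∘ₗ w =
            s (i + 1) q ∘ₗ (f i q ∘ₗ u) ∘ₗ f (i + k) q ∘ₗ w := rfl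
        rw [h2, ← hδ, h0, LinearMap.zero_comp, LinearMap.comp_zero]
      have hbact : lamV b ∘ₗ u = u ∘ₗ δ := by
        rw [hb, lamV_mul, LinearMap.comp_assoc, hfac i q hqi u, lamV_mul]
        have h1 := hprod (i + 1) k q
        have h2 : (i + 1 + k) = (i + k + 1) := by omega
        rw [h2] at h1
        have h3 : (lamV r ∘ₗ lamV (((List.range k).reverse.map fun l => a (i + 1 + l)).prod)) ∘ₗ
            s (i + 1) q ∘ₗ f i q ∘ₗ u = lamV r ∘ₗ
            (lamV (((List.range k).reverse.map fun l => a (i + 1 + l)).prod) ∘ₗ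
            s (i + 1) q) ∘ₗ f i q ∘ₗ u := rfl
        rw [h3, h1]
        rfl
      have hbpow : ∀ n : ℕ, lamV (b ^ n) ∘ₗ u = u ∘ₗ (δ ^ n) := by
        intro n
        induction n with
        | zero => rw [pow_zero, pow_zero, lamV_one]; rfl
        | succ n ih =>
          rw [pow_succ, lamV_mul, LinearMap.comp_assoc, hbact, ← LinearMap.comp_assoc, ih,
            LinearMap.comp_assoc, pow_succ]
          rfl
      refine ⟨u, ?_⟩
      rw [hbpow]
      have hu0 : u ≠ 0 := by
        intro h0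
        apply hδ0
        rw [hδ, h0, LinearMap.comp_zero]
      have hδb := LinearMap.bijective_of_ne_zero hδ0
      have hpowinj : ∀ n : ℕ, Injective (δ ^ n : Sim q →ₗ[Rᵐᵒᵖ] Sim q) := by
        intro n
        induction n with
        | zero => rw [pow_zero]; exact injective_id
        | succ n ih => rw [pow_succ]; exact ih.comp hδb.1
      intro h0
      have := IsSimpleModule.nontrivial Rᵐᵒᵖ (Sim q)
      obtain ⟨t, ht⟩ := exists_ne (0 : Sim q)
      apply ht
      apply hpowinj n
      apply LinearMap.injective_of_ne_zero hu0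
      have := LinearMap.congr_fun h0 t
      rw [map_zero, map_zero]
      exact this
    exact absurd (lt_of_le_of_lt (mk_le_mk_of_subset hsubs) hn) (not_lt.mpr hnot))
  -- contradiction
  rw [mem_smallIdeal] at hm
  have h1 : A m ⊆ supp (((List.range m).reverse.map a).prod) := by
    intro q hq
    refine ⟨s 0 q, ?_⟩
    have h2 := hprod 0 m q
    simp only [Nat.zero_add] at h2
    have h3 : lamV (((List.range m).reverse.map a).prod) ∘ₗ s 0 q = s m q := h2
    rw [h3]
    exact hsne m q hq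
  exact absurd (lt_of_le_of_lt (mk_le_mk_of_subset h1) hm) (not_lt.mpr (hbig m))

end

/-- Under nilness and weak T-nilpotence modulo the ideals of small support there are only finitely
many simples. -/
theorem finite_of_weak' {R : Type u} [Ring R] (hK : RightKasch R) (hD : FinDense R)
    (hnil : ∀ (μ : Cardinal.{u}) (hμ : ℵ₀ ≤ μ), ∀ b ∈ radOver {x : R | x ∈ smallIdeal R μ hμ},
      ∃ n : ℕ, b ^ n ∈ smallIdeal R μ hμ)
    (hweak : ∀ (μ : Cardinal.{u}) (hμ : ℵ₀ ≤ μ), ∀ a : ℕ → R,
      (∀ i, a i ∈ radOver {x : R | x ∈ smallIdeal R μ hμ}) →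
      (∀ i j, i ≤ j → ∀ r : R, a i * r * a j ∈ smallIdeal R μ hμ) →
      ∃ m : ℕ, ((List.range m).reverse.map a).prod ∈ smallIdeal R μ hμ) : Finite (Cls R) := by
  by_contra hinf
  rw [not_finite_iff_infinite] at hinf
  obtain ⟨μ, ι, A, hμ, hι, hA, hAA⟩ := tarski (Cls R)
  choose a ha1 ha2 using fun i => lemmaQ hK hD hμ (A i) (hA i) (hnil μ hμ) (hweak μ hμ)
  have hl : ∀ r : R, ∀ x ∈ {x : R | x ∈ smallIdeal R μ hμ}, r * x ∈ {x : R | x ∈ smallIdeal R μ hμ} :=
    fun r x hx => (smallIdeal R μ hμ).mul_mem_left _ _ hx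
  choose q hq1 hq2 using fun i => exists_P_of_notMem_radOver hl (ha2 i)
  have hinj : Injective q := by
    intro i j hij
    by_contra hne
    have h1 : ∀ r, a i * r * a j ∈ P (q i) := by
      intro r
      apply hq1 i
      change _ ∈ smallIdeal R μ hμ
      rw [mem_smallIdeal]
      have h2 : supp (a i * r * a j) ⊆ A i ∩ A j := by
        intro x hx
        refine ⟨ha1 i ?_, ha1 j (supp_mul_left _ _ hx)⟩
        rw [mul_assoc] at hx
        exact supp_mul_right _ _ hx
      exact lt_of_le_of_lt (mk_le_mk_of_subset h2) (hAA i j hne)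
    rcases P_prime _ h1 with h2 | h2
    · exact hq2 i h2
    · rw [hij] at h2
      exact hq2 j h2
  exact absurd hι (not_lt.mpr (mk_le_of_injective hinj))

theorem nil_small {R : Type u} [Ring R] (hnil : CompletelyNilModSing R) (μ : Cardinal.{u})
    (hμ : ℵ₀ ≤ μ) : ∀ b ∈ radOver {x : R | x ∈ smallIdeal R μ hμ},
      ∃ n : ℕ, b ^ n ∈ smallIdeal R μ hμ :=
  hnil _ (fun _ hz => singular_mem_smallIdeal hμ hz)

/-- Under complete nilness and the weak T-nilpotence there are only finitely many simples. -/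
theorem finite_of_weak {R : Type u} [Ring R] (hK : RightKasch R) (hD : FinDense R)
    (hnil : CompletelyNilModSing R) (hweak : WeaklyTNilpotentModSing R) : Finite (Cls R) :=
  finite_of_weak' hK hD (nil_small hnil)
    (fun _ hμ => hweak _ (fun _ hz => singular_mem_smallIdeal hμ hz))

/-- bounded homogeneous length gives the weak nilpotence -/
theorem finite_of_boundedLength {R : Type u} [Ring R] (hK : RightKasch R) (hD : FinDense R)
    (hnil : CompletelyNilModSing R) (hb : BoundedHomogeneousLength R) : Finite (Cls R) := by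
  obtain ⟨n, hn⟩ := hb
  apply finite_of_weak' hK hD (nil_small hnil)
  intro μ hμ a _ ha
  refine ⟨n, ?_⟩
  rw [mem_smallIdeal]
  -- the exceptional set
  let B : Set (Cls R) := ⋃ p ∈ (Finset.range n ×ˢ Finset.range n).filter (fun p => p.1 ≤ p.2),
    supp (a p.1 * a p.2)
  have hB : #B < μ := by
    have key : ∀ F : Finset (ℕ × ℕ), (∀ p ∈ F, p.1 ≤ p.2) →
        #(⋃ p ∈ F, supp (a p.1 * a p.2) : Set (Cls R)) < μ := by
      classical
      intro F
      induction F using Finset.induction_on with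
      | empty => intro _; simpa using lt_of_lt_of_le aleph0_pos hμ
      | insert p F hp ih =>
        intro hF
        rw [Finset.set_biUnion_insert]
        refine lt_of_le_of_lt (mk_union_le _ _) (add_lt_of_lt hμ ?_ ?_)
        · have h1 := ha p.1 p.2 (hF p (Finset.mem_insert_self _ _)) 1
          rw [mul_one, mem_smallIdeal] at h1
          exact h1
        · exact ih (fun b hb => hF b (Finset.mem_insert_of_mem hb))
    apply key
    intro p hp
    exact (Finset.mem_filter.mp hp).2
  refine lt_of_le_of_lt (mk_le_mk_of_subset ?_) hB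
  rintro q ⟨w, hw⟩
  by_contra hqB
  have hq : ∀ i j, i ≤ j → j < n → ∀ w' : Sim q →ₗ[Rᵐᵒᵖ] (rightSocle R),
      lamV (a i) ∘ₗ lamV (a j) ∘ₗ w' = 0 := by
    intro i j hij hj w'
    by_contra h
    apply hqB
    simp only [B, Set.mem_iUnion]
    refine ⟨(i, j), ?_, w', ?_⟩
    · rw [Finset.mem_filter, Finset.mem_product, Finset.mem_range, Finset.mem_range]
      exact ⟨⟨lt_of_le_of_lt hij hj, hj⟩, hij⟩
    · rw [lamV_mul, LinearMap.comp_assoc]
      exact h
  -- the maps s j
  let s : ℕ → (Sim q →ₗ[Rᵐᵒᵖ] (rightSocle R)) :=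
    fun j => lamV (((List.range j).reverse.map a).prod) ∘ₗ w
  have hs1 : ∀ j, s (j + 1) = lamV (a j) ∘ₗ s j := by
    intro j
    simp only [s]
    rw [List.range_succ, List.reverse_append, List.map_append, List.prod_append, lamV_mul,
      LinearMap.comp_assoc]
    simp only [List.reverse_singleton, List.map_cons, List.map_nil, List.prod_singleton]
  have hsn : s n ≠ 0 := hw
  have hsne : ∀ j, j ≤ n → s j ≠ 0 := by
    intro j hj h0
    apply hsn
    have : ∀ k, s (j + k) = 0 := by
      intro k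
      induction k with
      | zero => exact h0
      | succ k ih =>
        rw [← add_assoc, hs1, ih, LinearMap.comp_zero]
    obtain ⟨k, rfl⟩ := Nat.exists_eq_add_of_le hj
    exact this k
  have hkill : ∀ i j, i < j → j ≤ n → lamV (a i) ∘ₗ s j = 0 := by
    intro i j hij hj
    obtain ⟨k, rfl⟩ : ∃ k, j = k + 1 := ⟨j - 1, by omega⟩
    rw [hs1]
    exact hq i k (by omega) (by omega) _
  let f : (Fin (n + 1) → Sim q) →ₗ[Rᵐᵒᵖ] R :=
    (rightSocle R).subtype ∘ₗ (∑ j : Fin (n + 1), s j ∘ₗ LinearMap.proj j)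
  apply hn (rep q) (rep_coatom q)
  refine ⟨f, ?_⟩
  rw [← LinearMap.ker_eq_bot, LinearMap.ker_eq_bot']
  intro t ht
  have ht' : ∑ j : Fin (n + 1), s j (t j) = 0 := by
    apply Subtype.ext
    have h1 : f t = ((∑ j : Fin (n + 1), s j (t j) : rightSocle R) : R) := by
      simp only [f, LinearMap.comp_apply, LinearMap.sum_apply, LinearMap.proj_apply,
        Submodule.subtype_apply]
    rw [← h1, ht]; rfl
  -- by strong induction all coordinates vanish
  have hz : ∀ i : ℕ, ∀ hi : i < n + 1, t ⟨i, hi⟩ = 0 := by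
    intro i
    induction i using Nat.strong_induction_on with
    | _ i ih =>
      intro hi
      have h1 : ∑ j : Fin (n + 1), s j (t j) = s i (t ⟨i, hi⟩) +
          ∑ j ∈ Finset.univ.filter (fun j : Fin (n + 1) => i < j), s j (t j) := by
        rw [← Finset.sum_filter_add_sum_filter_not Finset.univ (fun j : Fin (n + 1) => i < j),
          add_comm]
        congr 1
        apply Finset.sum_eq_single (⟨i, hi⟩ : Fin (n + 1))
        · intro j hj hne
          rw [Finset.mem_filter] at hj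
          have h2 : (j : ℕ) < i := by
            have h3 : (j : ℕ) ≤ i := not_lt.mp hj.2
            have h4 : (j : ℕ) ≠ i := fun h => hne (Fin.ext h)
            omega
          have h3 := ih j h2 j.2
          have h4 : t j = 0 := h3
          rw [h4, map_zero]
        · intro h
          exfalso
          apply h
          rw [Finset.mem_filter]
          exact ⟨Finset.mem_univ _, lt_irrefl _⟩
      rw [ht'] at h1
      by_cases hin : i < n
      · have h2 := congrArg (lamV (a i)) h1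
        rw [map_zero, map_add, map_sum] at h2
        have h3 : ∑ j ∈ Finset.univ.filter (fun j : Fin (n + 1) => i < j),
            lamV (a i) (s j (t j)) = 0 := by
          apply Finset.sum_eq_zero
          intro j hj
          rw [Finset.mem_filter] at hj
          exact LinearMap.congr_fun (hkill i j hj.2 (Nat.lt_succ_iff.mp j.2)) (t j)
        rw [h3, add_zero] at h2
        have h4 : s (i + 1) (t ⟨i, hi⟩) = 0 := by rw [hs1]; exact h2.symm
        apply LinearMap.injective_of_ne_zero (hsne (i + 1) hin)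
        rw [h4, map_zero]
      · have h2 : ∑ j ∈ Finset.univ.filter (fun j : Fin (n + 1) => i < j), s j (t j) = 0 := by
          apply Finset.sum_eq_zero
          intro j hj
          rw [Finset.mem_filter] at hj
          have := j.2
          omega
        rw [h2, add_zero] at h1
        apply LinearMap.injective_of_ne_zero (hsne i (Nat.lt_succ_iff.mp hi))
        rw [← h1, map_zero]
  funext i
  exact hz i i.2

end Pool.MP_9c7981_al.H7
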