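import Pool.Agent.Lib.MP_9c7981_al_H7.Facts
import Pool.Agent.Lib.MP_9c7981_al_H7.InfiniteCase

/-!
# Sufficient conditions
-/

set_option autoImplicit false
universe u v

namespace Pool.MP_9c7981_al.H7

open Function

section
variable {R : Type u} [Ring R]

theorem quasi_regular_right (I : TwoSidedIdeal R) {r : R} (hr : r ∈ radOver {x : R | x ∈ I}) :
    ∃ y : R, (1 - r) * y - 1 ∈ I := by
  have h1 : (1 : R) ∈ LinearMap.range (lam (1 - r)) ⊔ toRight I := by
    by_contra h
    obtain ⟨M, hM, hIM⟩ := exists_coatom _ h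
    have h2 : r ∈ M := hr M hM (fun x hx => hIM ((le_sup_right : toRight I ≤ _) hx))
    have h3 : 1 - r ∈ M := by
      apply hIM
      apply (le_sup_left : LinearMap.range (lam (1 - r)) ≤ _)
      exact ⟨1, by rw [lam_apply, mul_one]⟩
    have h4 : (1 : R) ∈ M := by
      have := M.add_mem h3 h2
      rwa [sub_add_cancel] at this
    apply hM.1
    rw [eq_top_iff]
    intro x _
    have := right_mul_mem M h4 x
    rwa [one_mul] at this
  obtain ⟨_, ⟨y, rfl⟩, l, hl, hyl⟩ := Submodule.mem_sup.mp h1
  refine ⟨y, ?_⟩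
  have h2 : (1 - r) * y - 1 = -l := by
    have h3 : (1 - r) * y = 1 - l := eq_sub_of_add_eq hyl
    rw [h3]
    abel
  rw [h2]
  exact I.neg_mem hl

theorem quasi_regular (I : TwoSidedIdeal R) {r : R} (hr : r ∈ radOver {x : R | x ∈ I}) :
    ∃ y : R, y * (1 - r) - 1 ∈ I := by
  obtain ⟨y, hy⟩ := quasi_regular_right I hr
  -- y = 1 - r'' with r'' in the radical
  have hr2 : -(r * y + ((1 - r) * y - 1)) ∈ radOver {x : R | x ∈ I} := by
    intro M hM hIM
    apply M.neg_mem
    apply M.add_mem
    · exact right_mul_mem M (hr M hM hIM) y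
    · exact hIM _ hy
  have hy2 : 1 - -(r * y + ((1 - r) * y - 1)) = y := by
    rw [sub_mul]
    noncomm_ring
  obtain ⟨y', hy'⟩ := quasi_regular_right I hr2
  rw [hy2] at hy'
  refine ⟨y, ?_⟩
  -- (1 - r) ≡ (1 - r) y y' ≡ y'
  have h1 : (1 - r) - y' ∈ I := by
    have h2 : (1 - r) * (y * y' - 1) ∈ I := I.mul_mem_left _ _ hy'
    have h3 : ((1 - r) * y - 1) * y' ∈ I := I.mul_mem_right _ _ hy
    have h4 : (1 - r) - y' = ((1 - r) * y - 1) * y' - (1 - r) * (y * y' - 1) := by noncomm_ring
    rw [h4]
    exact I.sub_mem h3 h2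
  have h2 : y * (1 - r) - 1 = y * ((1 - r) - y') + (y * y' - 1) := by noncomm_ring
  rw [h2]
  exact I.add_mem (I.mul_mem_left _ _ h1) hy'

theorem exists_annIdeal (R : Type u) [Ring R] : ∃ A : TwoSidedIdeal R, ∀ x, x ∈ A ↔ x ∈ annSocle R :=
  exists_ideal (annSocle R) (by intro x _; rw [zero_mul])
    (by intro x y hx hy z hz; rw [add_mul, hx z hz, hy z hz, add_zero])
    (fun r {x} hx => annSocle_mul_left r hx) (fun r {x} hx => annSocle_mul_right r hx)

theorem quasi_regular_ann {r : R} (hr : r ∈ radOver (annSocle R)) :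
    ∃ y : R, ∀ x ∈ rightSocle R, y * (x - r * x) = x := by
  obtain ⟨A, hA⟩ := exists_annIdeal R
  have h1 : {x : R | x ∈ A} = annSocle R := Set.ext hA
  obtain ⟨y, hy⟩ := quasi_regular A (by rw [h1]; exact hr)
  refine ⟨y, fun x hx => ?_⟩
  have h2 := (hA _).mp hy x hx
  have h3 : y * (x - r * x) = (y * (1 - r) - 1) * x + x := by noncomm_ring
  rw [h3, h2, zero_add]

/-- invertible actions -/
theorem trivially_of_invertible (h : ActionsInvertible R) : RadicalActsTrivially R := by
  intro a ha K hK haK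
  by_contra hc
  push Not at hc
  obtain ⟨b, hb⟩ := h K hK a haK hc
  obtain ⟨y, hy⟩ := quasi_regular_ann (radOver_annSocle_mul (a := b) ha)
  obtain ⟨x, hx, hax⟩ := hc
  apply hax
  have h1 := hy x (atom_le_socle hK hx)
  rw [mul_assoc, hb x hx, sub_self, mul_zero] at h1
  rw [← h1, mul_zero]

theorem pow_inj_on {K : Submodule Rᵐᵒᵖ R} (hK : IsAtom K) {a : R}
    (hne : ∃ x ∈ K, a * x ≠ 0) : ∀ x ∈ K, a * x = 0 → x = 0 := by
  have hs : IsSimpleModule Rᵐᵒᵖ K := isSimpleModule_iff_isAtom.mpr hK
  let g : K →ₗ[Rᵐᵒᵖ] R := lam a ∘ₗ K.subtype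
  have hg : g ≠ 0 := by
    intro h
    obtain ⟨x, hx, hax⟩ := hne
    exact hax (LinearMap.congr_fun h ⟨x, hx⟩)
  have hinj := LinearMap.injective_of_ne_zero hg
  intro x hx h0
  have : (⟨x, hx⟩ : K) = 0 := hinj (by rw [map_zero]; exact h0)
  exact congrArg Subtype.val this

theorem surj_on {K : Submodule Rᵐᵒᵖ R} (hK : IsAtom K) {a : R} (haK : ∀ x ∈ K, a * x ∈ K)
    (hne : ∃ x ∈ K, a * x ≠ 0) : ∀ x ∈ K, ∃ y ∈ K, a * y = x := by
  have hs : IsSimpleModule Rᵐᵒᵖ K := isSimpleModule_iff_isAtom.mpr hK
  let g : K →ₗ[Rᵐᵒᵖ] K := (lam a).restrict haK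
  have hg : g ≠ 0 := by
    intro h
    obtain ⟨x, hx, hax⟩ := hne
    exact hax (congrArg Subtype.val (LinearMap.congr_fun h ⟨x, hx⟩))
  have hsurj := LinearMap.surjective_of_ne_zero hg
  intro x hx
  obtain ⟨y, hy⟩ := hsurj ⟨x, hx⟩
  exact ⟨y, y.2, congrArg Subtype.val hy⟩

theorem trivially_of_nil (h : ∀ a ∈ radOver (annSocle R), ∃ n : ℕ, a ^ n ∈ annSocle R) :
    RadicalActsTrivially R := by
  intro a ha K hK haK
  by_contra hc
  push Not at hc
  have hinj := pow_inj_on hK hc
  obtain ⟨n, hn⟩ := h a ha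
  obtain ⟨x, hx, hax⟩ := hc
  have hpow : ∀ m : ℕ, a ^ m * x ∈ K ∧ a ^ m * x ≠ 0 := by
    intro m
    induction m with
    | zero =>
      rw [pow_zero, one_mul]
      refine ⟨hx, ?_⟩
      rintro rfl
      exact hax (mul_zero a)
    | succ m ih =>
      rw [pow_succ', mul_assoc]
      exact ⟨haK _ ih.1, fun h0 => ih.2 (hinj _ ih.1 h0)⟩
  exact (hpow n).2 (hn x (atom_le_socle hK hx))

theorem singular_sub_ann {z : R} (hz : z ∈ rightSingular R) : z ∈ annSocle R :=
  mem_annSocle_iff.mpr (singular_kills hz)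

theorem trivially_of_completelyNil (h : CompletelyNilModSing R) : RadicalActsTrivially R := by
  apply trivially_of_nil
  obtain ⟨A, hA⟩ := exists_annIdeal R
  have h1 : {x : R | x ∈ A} = annSocle R := Set.ext hA
  intro a ha
  obtain ⟨n, hn⟩ := h A (fun z hz => (hA z).mpr (singular_sub_ann hz)) a (by rw [h1]; exact ha)
  exact ⟨n, (hA _).mp hn⟩

theorem invertible_of_algebraic (k : Type v) [Field k] [Algebra k R]
    (h : AlgebraicOnMinimal k R) : ActionsInvertible R := by
  intro K hK a haK hne
  have hsurj := surj_on hK haK hne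
  -- an annihilating polynomial with nonzero constant term
  have key : ∀ (n : ℕ) (p : Polynomial k), p.natDegree ≤ n → p ≠ 0 →
      (∀ x ∈ K, (Polynomial.aeval a p) * x = 0) →
      ∃ q : Polynomial k, q.coeff 0 ≠ 0 ∧ ∀ x ∈ K, (Polynomial.aeval a q) * x = 0 := by
    intro n
    induction n with
    | zero =>
      intro p hp hp0 hpK
      refine ⟨p, ?_, hpK⟩
      intro h0
      apply hp0
      rw [Polynomial.eq_C_of_natDegree_le_zero hp, h0, map_zero]
    | succ n ih =>
      intro p hp hp0 hpK
      by_cases h0 : p.coeff 0 = 0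
      · have hdiv : p.divX * Polynomial.X = p := by
          have := Polynomial.divX_mul_X_add p
          rwa [h0, map_zero, add_zero] at this
        apply ih p.divX
        · rw [Polynomial.natDegree_divX_eq_natDegree_tsub_one]
          omega
        · intro hd
          apply hp0
          rw [← hdiv, hd, zero_mul]
        · intro x hx
          obtain ⟨y, hy, rfl⟩ := hsurj x hx
          have h2 := hpK y hy
          rw [← hdiv, map_mul, Polynomial.aeval_X, mul_assoc] at h2
          exact h2
      · exact ⟨p, h0, hpK⟩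
  obtain ⟨p, hp0, hpK⟩ := h K hK a haK
  obtain ⟨q, hq0, hqK⟩ := key p.natDegree p le_rfl hp0 hpK
  refine ⟨-((q.coeff 0)⁻¹ • Polynomial.aeval a q.divX), ?_⟩
  intro x hx
  have h1 := hqK x hx
  have h2 : Polynomial.aeval a q = Polynomial.aeval a q.divX * a +
      algebraMap k R (q.coeff 0) := by
    conv_lhs => rw [← Polynomial.divX_mul_X_add q]
    rw [map_add, map_mul, Polynomial.aeval_X, Polynomial.aeval_C]
  rw [h2, add_mul] at h1
  have h3 : Polynomial.aeval a q.divX * a * x = -((q.coeff 0) • x) := by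
    rw [Algebra.smul_def]
    exact eq_neg_of_add_eq_zero_left h1
  rw [neg_mul, smul_mul_assoc, ← mul_assoc, h3, smul_neg, neg_neg, smul_smul, inv_mul_cancel₀ hq0,
    one_smul]

theorem killed_case (hK : RightKasch R) (hD : FinDense R) (hfin : Finite (Cls R))
    (h : SimplesKilledByRadical R) : SocleFGEssential R := by
  apply core_of_killed hK hD hfin
  intro q
  obtain ⟨w, hw0, hw⟩ := h (rep q) (rep_coatom q)
  refine ⟨w.codRestrict _ (fun t => mem_socle_of_simple w t), ?_, ?_⟩
  · intro h0
    apply hw0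
    apply LinearMap.ext
    intro t
    exact congrArg Subtype.val (LinearMap.congr_fun h0 t)
  · intro z hz
    apply LinearMap.ext
    intro t
    exact Subtype.ext (hw z hz t)

theorem hyperplane_case (hK : RightKasch R) (hD : FinDense R) (hfin : Finite (Cls R))
    (h : RadicalFaithfulOnHyperplane R) : SocleFGEssential R := by
  apply core' hK hD hfin
  intro q
  obtain ⟨f, hf0, hf⟩ := h (rep q) (rep_coatom q)
  refine ⟨f, hf0, ?_⟩
  intro z hz hzf
  rw [← mem_annSocle_iff]
  exact hf z hz (fun x hx => congrArg Subtype.val (hzf x hx))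

/-- the weak nilpotence for the ideal of elements of small support -/
theorem prod_notMem_pairwise (I : TwoSidedIdeal R) (a : ℕ → R)
    (ha : ∀ i j, i ≤ j → ∀ r : R, a i * r * a j ∈ I) (l : List ℕ) (hl : (l.map a).prod ∉ I) :
    l.Pairwise (· > ·) := by
  induction l with
  | nil => exact List.Pairwise.nil
  | cons i t ih =>
    rw [List.map_cons, List.prod_cons] at hl
    have ht : (t.map a).prod ∉ I := fun h => hl (I.mul_mem_left _ _ h)
    refine List.Pairwise.cons ?_ (ih ht)
    intro j hj
    by_contra hij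
    have hij' : i ≤ j := not_lt.mp hij
    obtain ⟨t1, t2, rfl⟩ := List.append_of_mem hj
    apply hl
    rw [List.map_append, List.prod_append, List.map_cons, List.prod_cons, ← mul_assoc, ← mul_assoc]
    exact I.mul_mem_right _ _ (ha i j hij' _)

theorem weak_of_pi (h : PIModSing R) : WeaklyTNilpotentModSing R := by
  intro I hI a _ ha
  obtain ⟨m, c, hc, hx⟩ := h
  refine ⟨m, ?_⟩
  have h1 := hI _ (hx (fun i => a (m - 1 - i)))
  have hother : ∀ σ : Equiv.Perm (Fin m), σ ≠ 1 →
      (List.ofFn fun i => a (m - 1 - (σ i : Fin m))).prod ∈ I := by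
    intro σ hσ
    by_contra hn
    have h2 : (List.ofFn fun i => a (m - 1 - (σ i : Fin m))) =
        (List.ofFn fun i => m - 1 - ((σ i : Fin m) : ℕ)).map a := by
      rw [List.map_ofFn]; rfl
    rw [h2] at hn
    have h3 := prod_notMem_pairwise I a ha _ hn
    rw [List.pairwise_ofFn] at h3
    apply hσ
    have hmono : StrictMono (σ : Fin m → Fin m) := by
      intro i j hij
      have h4 := h3 hij
      rw [Fin.lt_def]
      have hi := (σ i).2
      have hj := (σ j).2
      omega
    have h5 : hmono.orderIsoOfSurjective _ σ.surjective = OrderIso.refl _ := Subsingleton.elim _ _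
    ext i
    exact congrArg Fin.val (DFunLike.congr_fun h5 i)
  rw [← Finset.add_sum_erase _ _ (Finset.mem_univ (1 : Equiv.Perm (Fin m)))] at h1
  have h2 : (∑ σ ∈ Finset.univ.erase (1 : Equiv.Perm (Fin m)),
      c σ • (List.ofFn fun i => a (m - 1 - (σ i : Fin m))).prod) ∈ I := by
    apply sum_mem
    intro σ hσ
    exact zsmul_mem (hother σ (Finset.ne_of_mem_erase hσ)) _
  have h3 : (List.ofFn fun i : Fin m => a (m - 1 - i)).prod ∈ I := by
    have h4 := sub_mem h1 h2
    rw [add_sub_cancel_right, hc, one_smul] at h4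
    exact h4
  have h4 : (List.range m).reverse.map a = List.ofFn fun i : Fin m => a (m - 1 - i) := by
    apply List.ext_getElem
    · simp
    · intro i h1 h2
      simp
  rw [h4]
  exact h3

/-- bounded index -/
theorem pow_sum_eq {A : Type*} [Ring A] (a : ℕ → A) (ha : ∀ i j, i ≤ j → a i * a j = 0) (m : ℕ) :
    (∑ i ∈ Finset.range m, a i) ^ m = ((List.range m).reverse.map a).prod := by
  have hk : ∀ (x y : A), x * y = 0 → y * y = 0 → ∀ k : ℕ, (x + y) ^ (k + 1) =
      x ^ (k + 1) + y * x ^ k := by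
    intro x y hxy hyy k
    induction k with
    | zero => simp
    | succ k ih =>
      rw [pow_succ', ih, add_mul, mul_add, mul_add, ← mul_assoc x y, hxy, ← mul_assoc y y, hyy,
        zero_mul, pow_succ' x (k + 1), add_zero, add_zero]
  induction m with
  | zero => simp
  | succ m ih =>
    rw [Finset.sum_range_succ, hk]
    · rw [ih, pow_succ', ih, List.range_succ, List.reverse_append, List.map_append,
        List.prod_append]
      simp only [List.reverse_singleton, List.map_cons, List.map_nil, List.prod_singleton]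
      have : (∑ i ∈ Finset.range m, a i) * ((List.range m).reverse.map a).prod = 0 := by
        cases m with
        | zero => simp
        | succ m =>
          rw [List.range_succ, List.reverse_append, List.map_append, List.prod_append]
          simp only [List.reverse_singleton, List.map_cons, List.map_nil, List.prod_singleton]
          rw [← mul_assoc, Finset.sum_mul, Finset.sum_eq_zero, zero_mul]
          intro i hi
          exact ha i m (Nat.lt_succ_iff.mp (Finset.mem_range.mp hi))
      rw [this, zero_add]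
    · rw [Finset.sum_mul, Finset.sum_eq_zero]
      intro i hi
      exact ha i m (Finset.mem_range.mp hi).le
    · exact ha m m le_rfl

theorem weak_of_bounded (h : BoundedIndexModSing R) : WeaklyTNilpotentModSing R := by
  intro I hI a har ha
  obtain ⟨m, hm⟩ := h I hI
  refine ⟨m, ?_⟩
  have h1 : (∑ i ∈ Finset.range m, a i) ^ m ∈ I := by
    apply hm
    intro M hM hIM
    apply sum_mem
    intro i _
    exact har i M hM hIM
  let π := I.ringCon.mk'
  have hπ : ∀ x, π x = 0 ↔ x ∈ I := by
    intro x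
    rw [← TwoSidedIdeal.mem_ker, TwoSidedIdeal.ker_ringCon_mk']
  rw [← hπ] at h1 ⊢
  rw [map_pow, map_sum] at h1
  rw [map_list_prod, List.map_map]
  rw [pow_sum_eq (fun i => π (a i)) (by
    intro i j hij
    rw [← map_mul, hπ]
    have := ha i j hij 1
    rwa [mul_one] at this) m] at h1
  exact h1

theorem completelyNil_of_bounded (h : BoundedIndexModSing R) : CompletelyNilModSing R := by
  intro I hI a ha
  obtain ⟨n, hn⟩ := h I hI
  exact ⟨n, hn a ha⟩

end

end Pool.MP_9c7981_al.H7
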