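import Mathlib

/-!
# Definitions for `MP_9c7981_al` (right socle of right Kasch, right generalized `R`-tight rings)

A right `R`-module is a `Module Rᵐᵒᵖ`; a right ideal of `R` is a `Submodule Rᵐᵒᵖ R`.
-/

set_option autoImplicit false
universe u v

namespace Pool.MP_9c7981_al.H7

/-- `R` is right Kasch: every simple right `R`-module embeds in `R_R`
(the hypothesis of the frozen statement). -/
def RightKasch (R : Type u) [Ring R] : Prop :=
  ∀ (M : Type u) [AddCommGroup M] [Module Rᵐᵒᵖ M], IsSimpleModule Rᵐᵒᵖ M →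
    ∃ f : M →ₗ[Rᵐᵒᵖ] R, Function.Injective f

/-- `R` is right generalized `R`-tight: every cyclic submodule of the injective envelope of `R_R`
embeds in a free right module (verbatim the hypothesis of the frozen statement: for every injective
right module `E` and every injective linear `ι : R → E` with essential image). -/
def RightGenRTight (R : Type u) [Ring R] : Prop :=
  ∀ (E : Type u) [AddCommGroup E] [Module Rᵐᵒᵖ E], Module.Injective Rᵐᵒᵖ E →
    ∀ ι : R →ₗ[Rᵐᵒᵖ] E, Function.Injective ι →
    (∀ N : Submodule Rᵐᵒᵖ E, N ≠ ⊥ → N ⊓ LinearMap.range ι ≠ ⊥) →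
    ∀ x : E, ∃ (I : Type u) (f : ↥(Submodule.span Rᵐᵒᵖ {x}) →ₗ[Rᵐᵒᵖ] (I →₀ R)),
      Function.Injective f

/-- The right socle of `R`: the sum of the minimal right ideals. -/
def rightSocle (R : Type u) [Ring R] : Submodule Rᵐᵒᵖ R :=
  sSup {J : Submodule Rᵐᵒᵖ R | IsAtom J}

/-- The conclusion of the frozen statement: the right socle is finitely generated and it meets every
nonzero right ideal nontrivially. -/
def SocleFGEssential (R : Type u) [Ring R] : Prop :=
  (rightSocle R).FG ∧ ∀ I : Submodule Rᵐᵒᵖ R, I ≠ ⊥ → I ⊓ rightSocle R ≠ ⊥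

/-- The right singular ideal `Z(R_R)`: the elements `r` with `r N = 0` for some essential right
ideal `N`. -/
def rightSingular (R : Type u) [Ring R] : Set R :=
  {r | ∃ N : Submodule Rᵐᵒᵖ R, (∀ I : Submodule Rᵐᵒᵖ R, I ≠ ⊥ → N ⊓ I ≠ ⊥) ∧ ∀ x ∈ N, r * x = 0}

/-- `R` has only finitely many simple right modules up to isomorphism: finitely many of the modules
`R ⧸ N`, `N` a right ideal, represent all the modules `R ⧸ M`, `M` a maximal right ideal. -/
def FinitelyManySimples (R : Type u) [Ring R] : Prop :=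
  ∃ T : Finset (Submodule Rᵐᵒᵖ R), ∀ M : Submodule Rᵐᵒᵖ R, IsCoatom M →
    ∃ N ∈ T, Nonempty ((R ⧸ M) ≃ₗ[Rᵐᵒᵖ] (R ⧸ N))

/-- For a set `I` (in the applications a two-sided ideal), the intersection of the maximal right
ideals containing `I`.  If `I` is a two-sided ideal, this is the preimage in `R` of the Jacobson
radical of the quotient ring `R / I`. -/
def radOver {R : Type u} [Ring R] (I : Set R) : Set R :=
  {a | ∀ M : Submodule Rᵐᵒᵖ R, IsCoatom M → (∀ x ∈ I, x ∈ M) → a ∈ M}

/-- The left annihilator `{a | a Soc(R_R) = 0}` of the right socle. -/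
def annSocle (R : Type u) [Ring R] : Set R :=
  {a | ∀ x ∈ rightSocle R, a * x = 0}

/-- `R` is left Kasch: every simple left `R`-module embeds in `R`. -/
def LeftKasch (R : Type u) [Ring R] : Prop :=
  ∀ (M : Type u) [AddCommGroup M] [Module R M], IsSimpleModule R M →
    ∃ f : M →ₗ[R] R, Function.Injective f

/-- Every proper two-sided ideal `I` of `R` which contains `l(Soc(R_R))` has a nonzero right
annihilator: `I x = 0` for some `x ≠ 0`. -/
def ProperIdealsAnnihilated (R : Type u) [Ring R] : Prop :=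
  ∀ I : TwoSidedIdeal R, (∀ a ∈ annSocle R, a ∈ I) → (1 : R) ∉ I →
    ∃ x : R, x ≠ 0 ∧ ∀ a ∈ I, a * x = 0

/-- For every simple right module `S` there is a nonzero linear map `f : Soc(R_R) → S` such that the
only elements of the Jacobson radical of `R / l(Soc(R_R))` which kill the kernel of `f` (by left
multiplication) are the zero elements of `R / l(Soc(R_R))`. -/
def RadicalFaithfulOnHyperplane (R : Type u) [Ring R] : Prop :=
  ∀ M : Submodule Rᵐᵒᵖ R, IsCoatom M → ∃ f : (rightSocle R) →ₗ[Rᵐᵒᵖ] (R ⧸ M), f ≠ 0 ∧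
    ∀ z ∈ radOver (annSocle R), (∀ x : rightSocle R, f x = 0 → z * (x : R) = 0) → z ∈ annSocle R

/-- No element `a` whose image in the ring `R / l(Soc(R_R))` lies in its Jacobson radical acts by
left multiplication as a nonzero endomorphism of a minimal right ideal `K`: if `a K ⊆ K` for such an
`a`, then `a K = 0`. -/
def RadicalActsTrivially (R : Type u) [Ring R] : Prop :=
  ∀ a ∈ radOver (annSocle R), ∀ K : Submodule Rᵐᵒᵖ R, IsAtom K →
    (∀ x ∈ K, a * x ∈ K) → ∀ x ∈ K, a * x = 0

/-- Every simple right module embeds in the right ideal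
`{x ∈ R | z x = 0 for all z ∈ R whose image in R / l(Soc(R_R)) is in its Jacobson radical}`. -/
def SimplesKilledByRadical (R : Type u) [Ring R] : Prop :=
  ∀ M : Submodule Rᵐᵒᵖ R, IsCoatom M → ∃ w : (R ⧸ M) →ₗ[Rᵐᵒᵖ] R, w ≠ 0 ∧
    ∀ z ∈ radOver (annSocle R), ∀ t, z * w t = 0

/-- Left multiplications which induce a nonzero endomorphism of a minimal right ideal `K` are
invertible on `K` by left multiplications: if `a K ⊆ K` and `a K ≠ 0` then there is `b ∈ R` with
`b a x = x` for all `x ∈ K`. -/
def ActionsInvertible (R : Type u) [Ring R] : Prop :=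
  ∀ K : Submodule Rᵐᵒᵖ R, IsAtom K → ∀ a : R, (∀ x ∈ K, a * x ∈ K) → (∃ x ∈ K, a * x ≠ 0) →
    ∃ b : R, ∀ x ∈ K, b * (a * x) = x

/-- `R` is an algebra over the field `k`, and left multiplications `x ↦ a x` which map a minimal
right ideal `K` to itself are algebraic over `k` on `K`: some nonzero polynomial `p` over `k` has
`p(a) K = 0`. -/
def AlgebraicOnMinimal (k : Type v) [Field k] (R : Type u) [Ring R] [Algebra k R] : Prop :=
  ∀ K : Submodule Rᵐᵒᵖ R, IsAtom K → ∀ a : R, (∀ x ∈ K, a * x ∈ K) →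
    ∃ p : Polynomial k, p ≠ 0 ∧ ∀ x ∈ K, (Polynomial.aeval a p) * x = 0

/-- The Jacobson radical of `R / Z(R_R)` is completely nil: for every two-sided ideal `I` containing
`Z(R_R)`, the Jacobson radical of `R / I` is a nil ideal (of `R / I`). -/
def CompletelyNilModSing (R : Type u) [Ring R] : Prop :=
  ∀ I : TwoSidedIdeal R, (∀ z ∈ rightSingular R, z ∈ I) →
    ∀ a ∈ radOver {x : R | x ∈ I}, ∃ n : ℕ, a ^ n ∈ I

/-- A weak form of complete right T-nilpotence of the Jacobson radical of `R / Z(R_R)`: for every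
two-sided ideal `I` containing `Z(R_R)`, those sequences `a₀, a₁, …` in the Jacobson radical of
`R / I` which satisfy the additional condition `aᵢ (R / I) aⱼ = 0` for all `i ≤ j` have
`aₘ₋₁ ⋯ a₁ a₀ = 0` (in `R / I`) for some `m`.  (Right T-nilpotence is the same without the
additional condition.) -/
def WeaklyTNilpotentModSing (R : Type u) [Ring R] : Prop :=
  ∀ I : TwoSidedIdeal R, (∀ z ∈ rightSingular R, z ∈ I) →
    ∀ a : ℕ → R, (∀ i, a i ∈ radOver {x : R | x ∈ I}) →
      (∀ i j, i ≤ j → ∀ r : R, a i * r * a j ∈ I) →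
      ∃ m : ℕ, ((List.range m).reverse.map a).prod ∈ I

/-- `R / Z(R_R)` satisfies a polynomial identity: for some `m` there are integers `c_σ`
(`σ` a permutation of `{0, …, m-1}`), with `c_id = 1`, such that
`∑_σ c_σ x_{σ(0)} ⋯ x_{σ(m-1)}` lies in `Z(R_R)` for all `x₀, …, x_{m-1}` in `R`. -/
def PIModSing (R : Type u) [Ring R] : Prop :=
  ∃ (m : ℕ) (c : Equiv.Perm (Fin m) → ℤ), c 1 = 1 ∧
    ∀ x : Fin m → R, (∑ σ : Equiv.Perm (Fin m), c σ • (List.ofFn fun i => x (σ i)).prod) ∈
      rightSingular R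

/-- For every two-sided ideal `I` containing `Z(R_R)` the Jacobson radical of `R / I` is nil of
bounded index: there is `n` (depending on `I`) with `a ^ n ∈ I` for all `a` in the preimage of the
radical. -/
def BoundedIndexModSing (R : Type u) [Ring R] : Prop :=
  ∀ I : TwoSidedIdeal R, (∀ z ∈ rightSingular R, z ∈ I) →
    ∃ n : ℕ, ∀ a ∈ radOver {x : R | x ∈ I}, a ^ n ∈ I

/-- The homogeneous components of the right socle have bounded length: there is `n` such that no
direct sum of `n + 1` isomorphic minimal right ideals is contained in `R`; in other words, for every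
maximal right ideal `M` there is no injective linear map `(R ⧸ M)^(n+1) → R`. -/
def BoundedHomogeneousLength (R : Type u) [Ring R] : Prop :=
  ∃ n : ℕ, ∀ M : Submodule Rᵐᵒᵖ R, IsCoatom M →
    ¬ ∃ f : (Fin (n + 1) → R ⧸ M) →ₗ[Rᵐᵒᵖ] R, Function.Injective f

/-- The Jacobson radical of `R`, as the intersection of the maximal right ideals. -/
def rightJacobson (R : Type u) [Ring R] : Submodule Rᵐᵒᵖ R :=
  sInf {M : Submodule Rᵐᵒᵖ R | IsCoatom M}

/-- `R` is semilocal (`R / J(R)` is a semisimple right module) and every element of `J(R)` is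
nilpotent modulo `Z(R_R)`. -/
def SemilocalNilModSing (R : Type u) [Ring R] : Prop :=
  IsSemisimpleModule Rᵐᵒᵖ (R ⧸ rightJacobson R) ∧
    ∀ a ∈ rightJacobson R, ∃ n : ℕ, a ^ n ∈ rightSingular R

end Pool.MP_9c7981_al.H7
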