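import Pool.Agent.Lib.MP_9c7981_al_H7.LeftAnn

/-!
# Unconditional facts, left Kasch rings
-/

set_option autoImplicit false
universe u v

namespace Pool.MP_9c7981_al.H7

open Function

section
variable {R : Type u} [Ring R]

/-- the right socle meets every nonzero left ideal -/
theorem socle_left_essential (hK : RightKasch R) (hD : FinDense R) (a : R) (ha : a ≠ 0) :
    ∃ c : R, c * a ≠ 0 ∧ c * a ∈ rightSocle R := by
  have h1 : (1 : R) ∉ LinearMap.ker (lam a) := by
    intro h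
    have : a * 1 = 0 := h
    rw [mul_one] at this
    exact ha this
  obtain ⟨M, hM, hMa⟩ := exists_coatom _ h1
  have hs : IsSimpleModule Rᵐᵒᵖ (R ⧸ M) := isSimpleModule_iff_isCoatom.mpr hM
  obtain ⟨e, he⟩ := hK (R ⧸ M) hs
  -- the map a r ↦ e (mk r)
  let g : LinearMap.range (lam a) →ₗ[Rᵐᵒᵖ] R :=
    (LinearMap.ker (lam a)).liftQ (e ∘ₗ M.mkQ) (by
      intro x hx
      change e (M.mkQ x) = 0
      have : M.mkQ x = 0 := by
        rw [Submodule.mkQ_apply, Submodule.Quotient.mk_eq_zero]; exact hMa hx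
      rw [this, map_zero]) ∘ₗ (lam a).quotKerEquivRange.symm.toLinearMap
  have hg : ∀ r : R, g ⟨lam a r, ⟨r, rfl⟩⟩ = e (M.mkQ r) := by
    intro r
    simp only [g, LinearMap.comp_apply, LinearEquiv.coe_coe]
    have : (lam a).quotKerEquivRange.symm ⟨lam a r, ⟨r, rfl⟩⟩ = Submodule.Quotient.mk r := by
      rw [LinearEquiv.symm_apply_eq]
      rfl
    rw [this]
    rfl
  obtain ⟨F, hF⟩ := hD _ (LinearMap.range (lam a)).subtype (Submodule.injective_subtype _) g
  have hF' : ∀ r : R, e (M.mkQ r) = 0 ↔ ∀ c ∈ F, c * (a * r) = 0 := by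
    intro r
    rw [← hg]
    exact hF ⟨lam a r, ⟨r, rfl⟩⟩
  have h2 : ∃ c ∈ F, c * a ≠ 0 := by
    by_contra hc
    push Not at hc
    have h3 : e (M.mkQ 1) = 0 := by
      rw [hF']
      intro c hcF
      rw [mul_one]
      exact hc c hcF
    have h4 : M.mkQ (1 : R) = 0 := he (by rw [h3, map_zero])
    rw [Submodule.mkQ_apply, Submodule.Quotient.mk_eq_zero] at h4
    apply hM.1
    rw [eq_top_iff]
    intro x _
    have := right_mul_mem M h4 x
    rwa [one_mul] at this
  obtain ⟨c, hcF, hca⟩ := h2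
  refine ⟨c, hca, ?_⟩
  let h : (R ⧸ M) →ₗ[Rᵐᵒᵖ] R := M.liftQ (lam (c * a)) (by
    intro x hx
    have h3 : M.mkQ x = 0 := by
      rw [Submodule.mkQ_apply, Submodule.Quotient.mk_eq_zero]; exact hx
    have h4 := (hF' x).mp (by rw [h3, map_zero]) c hcF
    change c * a * x = 0
    rw [mul_assoc]; exact h4)
  have h5 := mem_socle_of_simple h (Submodule.Quotient.mk 1)
  have h6 : h (Submodule.Quotient.mk 1) = c * a := by
    change c * a * 1 = c * a
    rw [mul_one]
  rwa [h6] at h5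

/-- every right ideal is a right annihilator -/
theorem right_ideal_annihilator (hK : RightKasch R) (hD : FinDense R) (I : Submodule Rᵐᵒᵖ R)
    (x : R) (hx : ∀ a : R, (∀ y ∈ I, a * y = 0) → a * x = 0) : x ∈ I := by
  by_contra hxI
  -- the right ideal {r | x r ∈ I} is proper
  have h1 : (1 : R) ∉ I.comap (lam x) := by
    intro h
    apply hxI
    have : x * 1 ∈ I := h
    rwa [mul_one] at this
  obtain ⟨M, hM, hMI⟩ := exists_coatom _ h1
  have hs : IsSimpleModule Rᵐᵒᵖ (R ⧸ M) := isSimpleModule_iff_isCoatom.mpr hM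
  obtain ⟨e, he⟩ := hK (R ⧸ M) hs
  -- the map R × I → R, (r, y) ↦ x r + y with image X
  let π : (R × I) →ₗ[Rᵐᵒᵖ] R := (lam x).coprod I.subtype
  let X : Submodule Rᵐᵒᵖ R := LinearMap.range π
  let g0 : (R × I) →ₗ[Rᵐᵒᵖ] R := (e ∘ₗ M.mkQ) ∘ₗ LinearMap.fst _ _ _
  have hker : LinearMap.ker π ≤ LinearMap.ker g0 := by
    rintro ⟨r, y⟩ h
    have h2 : x * r + y = 0 := by simpa [π] using h
    have h3 : x * r = -(y : R) := eq_neg_of_add_eq_zero_left h2
    have h4 : r ∈ M := hMI (show x * r ∈ I by rw [h3]; exact I.neg_mem y.2)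
    change e (M.mkQ r) = 0
    have : M.mkQ r = 0 := by
      rw [Submodule.mkQ_apply, Submodule.Quotient.mk_eq_zero]; exact h4
    rw [this, map_zero]
  let g : X →ₗ[Rᵐᵒᵖ] R := (LinearMap.ker π).liftQ g0 hker ∘ₗ π.quotKerEquivRange.symm.toLinearMap
  have hg : ∀ p : R × I, g ⟨π p, ⟨p, rfl⟩⟩ = g0 p := by
    intro p
    simp only [g, LinearMap.comp_apply, LinearEquiv.coe_coe]
    have : π.quotKerEquivRange.symm ⟨π p, ⟨p, rfl⟩⟩ = Submodule.Quotient.mk p := by
      rw [LinearEquiv.symm_apply_eq]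
      rfl
    rw [this]
    rfl
  obtain ⟨F, hF⟩ := hD _ X.subtype (Submodule.injective_subtype _) g
  have hF' : ∀ (r : R) (y : I), e (M.mkQ r) = 0 ↔ ∀ c ∈ F, c * (x * r + y) = 0 := by
    intro r y
    have h2 := hF ⟨π (r, y), ⟨(r, y), rfl⟩⟩
    rw [hg] at h2
    have h3 : π (r, y) = x * r + y := by simp [π]
    rw [← h3]
    exact h2
  have hFI : ∀ c ∈ F, ∀ y ∈ I, c * y = 0 := by
    intro c hc y hy
    have := (hF' 0 ⟨y, hy⟩).mp (by rw [map_zero, map_zero]) c hc
    simpa using this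
  have h3 : e (M.mkQ 1) = 0 := by
    rw [hF' 1 0]
    intro c hc
    have := hx c (hFI c hc)
    simpa using this
  have h4 : M.mkQ (1 : R) = 0 := he (by rw [h3, map_zero])
  rw [Submodule.mkQ_apply, Submodule.Quotient.mk_eq_zero] at h4
  apply hM.1
  rw [eq_top_iff]
  intro y _
  have := right_mul_mem M h4 y
  rwa [one_mul] at this

/-- left Kasch rings -/
theorem annihilated_of_leftKasch (h : LeftKasch R) : ProperIdealsAnnihilated R := by
  intro I _ hI1
  -- the left ideal underlying I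
  let J : Ideal R :=
    { carrier := {x | x ∈ I}
      add_mem' := fun {a b} ha hb => I.add_mem ha hb
      zero_mem' := I.zero_mem
      smul_mem' := fun c x hx => I.mul_mem_left _ _ hx }
  have hJ : J ≠ ⊤ := by
    intro h'
    apply hI1
    have : (1 : R) ∈ J := by rw [h']; trivial
    exact this
  obtain ⟨M, hM, hJM⟩ := Ideal.exists_le_maximal J hJ
  have hs : IsSimpleModule R (R ⧸ M) := isSimpleModule_iff_isCoatom.mpr hM.out
  obtain ⟨e, he⟩ := h (R ⧸ M) hs
  refine ⟨e (Submodule.Quotient.mk 1), ?_, ?_⟩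
  · intro h0
    have h1 : (Submodule.Quotient.mk 1 : R ⧸ M) = 0 := he (by rw [h0, map_zero])
    rw [Submodule.Quotient.mk_eq_zero] at h1
    exact hM.ne_top ((Ideal.eq_top_iff_one M).mpr h1)
  · intro a ha
    have h1 : a * e (Submodule.Quotient.mk 1) = e (a • (Submodule.Quotient.mk 1 : R ⧸ M)) := by
      rw [map_smul]; rfl
    rw [h1, ← Submodule.Quotient.mk_smul]
    have h2 : a • (1 : R) ∈ M := by
      rw [smul_eq_mul, mul_one]
      exact hJM ha
    rw [(Submodule.Quotient.mk_eq_zero M).mpr h2, map_zero]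

end

end Pool.MP_9c7981_al.H7
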