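import Pool.Agent.Lib.MP_9c7981_al_H7.Spec

/-!
# Finitely many simple modules: the main argument
-/

set_option autoImplicit false
universe u v

namespace Pool.MP_9c7981_al.H7

open Function

section
variable {R : Type u} [Ring R]

/-- two-sided ideals from closure properties -/
def mkIdeal (s : Set R) (h0 : (0 : R) ∈ s) (hadd : ∀ {x y}, x ∈ s → y ∈ s → x + y ∈ s)
    (hl : ∀ (r : R) {x}, x ∈ s → r * x ∈ s)
    (hr : ∀ (r : R) {x}, x ∈ s → x * r ∈ s) : TwoSidedIdeal R :=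
  TwoSidedIdeal.mk' s h0 hadd (fun {x} hx => by rw [← neg_one_mul]; exact hl _ hx)
    (fun {_ _} hy => hl _ hy) (fun {_ _} hx => hr _ hx)

theorem mem_mkIdeal {s : Set R} {h0 : (0 : R) ∈ s} {hadd : ∀ {x y}, x ∈ s → y ∈ s → x + y ∈ s}
    {hl : ∀ (r : R) {x}, x ∈ s → r * x ∈ s}
    {hr : ∀ (r : R) {x}, x ∈ s → x * r ∈ s} {x : R} :
    x ∈ mkIdeal s h0 hadd hl hr ↔ x ∈ s :=
  TwoSidedIdeal.mem_mk' ..

/-- the key consequence of `RadicalActsTrivially` -/
theorem noinv (hN : RadicalActsTrivially R) {z : R} (hz : z ∈ radOver (annSocle R))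
    {S : Type*} [AddCommGroup S] [Module Rᵐᵒᵖ S] [IsSimpleModule Rᵐᵒᵖ S]
    (v : S →ₗ[Rᵐᵒᵖ] (rightSocle R)) (hv : v ≠ 0) (δ : S →ₗ[Rᵐᵒᵖ] S)
    (h : lamV z ∘ₗ v = v ∘ₗ δ) : δ = 0 := by
  have hinj := LinearMap.injective_of_ne_zero hv
  let g : S →ₗ[Rᵐᵒᵖ] R := (rightSocle R).subtype ∘ₗ v
  have hg : Injective g := (Submodule.injective_subtype _).comp hinj
  have e := LinearEquiv.ofInjective g hg
  have hs : IsSimpleModule Rᵐᵒᵖ (LinearMap.range g) := IsSimpleModule.congr e.symm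
  have ha : IsAtom (LinearMap.range g) := isSimpleModule_iff_isAtom.mp hs
  have hzv : ∀ s, z * g s = g (δ s) := by
    intro s
    have := LinearMap.congr_fun h s
    exact congrArg Subtype.val this
  have h1 := hN z hz (LinearMap.range g) ha (by
    rintro _ ⟨s, rfl⟩
    rw [hzv]
    exact ⟨_, rfl⟩)
  ext s
  have h2 := h1 (g s) ⟨s, rfl⟩
  rw [hzv] at h2
  apply hg
  rw [h2]
  simp

variable (a : Cls R → R) (f : ∀ q : Cls R, (rightSocle R) →ₗ[Rᵐᵒᵖ] Sim q)
  (v : ∀ q : Cls R, Sim q →ₗ[Rᵐᵒᵖ] (rightSocle R))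

/-- `R / P p` is killed by the annihilator of the socle but not by `a q` -/
def Rel (q p : Cls R) : Prop := (∀ x ∈ annSocle R, x ∈ P p) ∧ a q ∉ P p

/-- the criterion `(U)` for the data `(f, v)`: no element of the radical modulo the annihilator of the
socle acts as `v ∘ δ ∘ f` with `δ ≠ 0` -/
def Umap (f : ∀ q : Cls R, (rightSocle R) →ₗ[Rᵐᵒᵖ] Sim q)
    (v : ∀ q : Cls R, Sim q →ₗ[Rᵐᵒᵖ] (rightSocle R)) : Prop :=
  ∀ q : Cls R, ∀ z ∈ radOver (annSocle R), ∀ δ : Sim q →ₗ[Rᵐᵒᵖ] Sim q,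
    lamV z = v q ∘ₗ δ ∘ₗ f q → δ = 0

theorem exists_rel (hU : Umap f v) (hav : ∀ q, lamV (a q) = v q ∘ₗ f q) (q : Cls R) :
    ∃ p, Rel a q p := by
  have h : a q ∉ radOver (annSocle R) := by
    intro hz
    exact id_ne_zero' (Sim q) (hU q (a q) hz LinearMap.id (by rw [hav q]; rfl))
  exact exists_P_of_notMem_radOver (fun r x hx => annSocle_mul_left r hx) h

theorem rel_unique (hav : ∀ q, lamV (a q) = v q ∘ₗ f q) {q q' p : Cls R} (h : Rel a q p)
    (h' : Rel a q' p) : q = q' := by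
  by_contra hne
  have h1 : ∀ r, a q * r * a q' ∈ P p := by
    intro r
    apply h.1
    rw [mem_annSocle_iff, lamV_mul, lamV_mul, hav, hav]
    have h2 : f q ∘ₗ lamV r ∘ₗ v q' = 0 := map_eq_zero_of_ne (Ne.symm hne) _
    ext x
    have h3 := LinearMap.congr_fun h2 (f q' x)
    simp only [LinearMap.comp_apply] at h3 ⊢
    rw [h3]
    simp
  rcases P_prime p h1 with h2 | h2
  · exact h.2 h2
  · exact h'.2 h2

theorem exists_bij [Finite (Cls R)] (hU : Umap f v)
    (hav : ∀ q, lamV (a q) = v q ∘ₗ f q) :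
    ∃ c : Cls R → Cls R, Bijective c ∧ (∀ q, Rel a q (c q)) ∧ ∀ q p, Rel a q p → p = c q := by
  choose c hc using exists_rel a f v hU hav
  have hinj : Injective c := by
    intro q q' hqq'
    have h1 := hc q
    rw [hqq'] at h1
    exact rel_unique a f v hav h1 (hc q')
  have hsurj : Surjective c := Finite.surjective_of_injective hinj
  refine ⟨c, ⟨hinj, hsurj⟩, hc, ?_⟩
  intro q p hqp
  obtain ⟨q', rfl⟩ := hsurj p
  rw [rel_unique a f v hav hqp (hc q')]

/-- a two-sided ideal containing all `a q` is everything -/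
theorem one_mem_of_forall (hsurj : ∀ p, ∃ q, Rel a q p) (I : TwoSidedIdeal R)
    (h : ∀ q, a q ∈ I) : (1 : R) ∈ I := by
  by_contra h1
  obtain ⟨p, hp⟩ := exists_P I h1
  obtain ⟨q, hq⟩ := hsurj p
  exact hq.2 (hp _ (h q))

theorem socle_fg (hav : ∀ q, lamV (a q) = v q ∘ₗ f q) (hsurj : ∀ p, ∃ q, Rel a q p) :
    (rightSocle R).FG := by
  let s : Set R := {b | ∃ W : Submodule Rᵐᵒᵖ (rightSocle R), W.FG ∧ LinearMap.range (lamV b) ≤ W}
  let I : TwoSidedIdeal R := mkIdeal s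
    (⟨⊥, Submodule.fg_bot, by rw [lamV_zero, LinearMap.range_zero]⟩)
    (by
      rintro x y ⟨W, hW, hxW⟩ ⟨W', hW', hyW'⟩
      refine ⟨W ⊔ W', hW.sup hW', ?_⟩
      rw [lamV_add]
      rintro _ ⟨z, rfl⟩
      exact Submodule.add_mem_sup (hxW ⟨z, rfl⟩) (hyW' ⟨z, rfl⟩))
    (by
      rintro r x ⟨W, hW, hxW⟩
      refine ⟨W.map (lamV r), hW.map _, ?_⟩
      rw [lamV_mul]
      rintro _ ⟨z, rfl⟩
      exact ⟨_, hxW ⟨z, rfl⟩, rfl⟩)
    (by
      rintro r x ⟨W, hW, hxW⟩
      refine ⟨W, hW, ?_⟩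
      rw [lamV_mul]
      rintro _ ⟨z, rfl⟩
      exact hxW ⟨_, rfl⟩)
  have h1 : (1 : R) ∈ I := by
    apply one_mem_of_forall a hsurj
    intro q
    refine mem_mkIdeal.mpr ⟨LinearMap.range (v q), ?_, ?_⟩
    · rw [LinearMap.range_eq_map]
      exact Submodule.FG.map _ Module.Finite.fg_top
    · rw [hav q]
      exact LinearMap.range_comp_le_range _ _
  obtain ⟨W, hW, h2⟩ := mem_mkIdeal.mp h1
  rw [lamV_one, LinearMap.range_id, top_le_iff] at h2
  rw [h2] at hW
  exact (Submodule.fg_top _).mp hW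

theorem claimB (hav : ∀ q, lamV (a q) = v q ∘ₗ f q) (hsurj : ∀ p, ∃ q, Rel a q p)
    (q : Cls R) (w : Sim q →ₗ[Rᵐᵒᵖ] (rightSocle R)) (hw : w ≠ 0) :
    ∃ y : R, f q ∘ₗ lamV y ∘ₗ w ≠ 0 := by
  by_contra hc
  push Not at hc
  let s : Set R := {b | ∀ y : R, lamV b ∘ₗ lamV y ∘ₗ w = 0}
  let I : TwoSidedIdeal R := mkIdeal s
    (by intro y; rw [lamV_zero, LinearMap.zero_comp])
    (by intro b b' hb hb' y; rw [lamV_add, LinearMap.add_comp, hb y, hb' y, add_zero])
    (by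
      intro r b hb y
      rw [lamV_mul, LinearMap.comp_assoc, hb y, LinearMap.comp_zero])
    (by
      intro r b hb y
      have := hb (r * y)
      rw [lamV_mul] at this ⊢
      exact this)
  have h1 : (1 : R) ∈ I := by
    apply one_mem_of_forall a hsurj
    intro q'
    refine mem_mkIdeal.mpr ?_
    intro y
    have h2 : f q' ∘ₗ lamV y ∘ₗ w = 0 := by
      by_cases hq : q = q'
      · subst hq; exact hc y
      · exact map_eq_zero_of_ne hq _
    rw [hav q', LinearMap.comp_assoc, h2, LinearMap.comp_zero]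
  have h2 := mem_mkIdeal.mp h1 1
  apply hw
  rw [lamV_one] at h2
  exact h2

theorem claimA (hav : ∀ q, lamV (a q) = v q ∘ₗ f q) (hsurj : ∀ p, ∃ q, Rel a q p)
    (q : Cls R) (g : (rightSocle R) →ₗ[Rᵐᵒᵖ] (rightSocle R))
    (w : Sim q →ₗ[Rᵐᵒᵖ] (rightSocle R)) (hw : g ∘ₗ w ≠ 0) :
    ∃ x : R, g ∘ₗ lamV x ∘ₗ v q ≠ 0 := by
  by_contra hc
  push Not at hc
  let s : Set R := {b | ∀ (x : R) (w : Sim q →ₗ[Rᵐᵒᵖ] (rightSocle R)),
    g ∘ₗ lamV x ∘ₗ lamV b ∘ₗ w = 0}
  let I : TwoSidedIdeal R := mkIdeal s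
    (by intro x w; rw [lamV_zero, LinearMap.zero_comp, LinearMap.comp_zero, LinearMap.comp_zero])
    (by
      intro b b' hb hb' x w
      rw [lamV_add, LinearMap.add_comp, LinearMap.comp_add, LinearMap.comp_add, hb x w, hb' x w,
        add_zero])
    (by
      intro r b hb x w
      have := hb (x * r) w
      rw [lamV_mul] at this ⊢
      exact this)
    (by
      intro r b hb x w
      have := hb x (lamV r ∘ₗ w)
      rw [lamV_mul]
      exact this)
  have h1 : (1 : R) ∈ I := by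
    apply one_mem_of_forall a hsurj
    intro q'
    refine mem_mkIdeal.mpr ?_
    intro x w
    rw [hav q']
    by_cases hq : q = q'
    · subst hq
      apply LinearMap.ext
      intro y
      exact LinearMap.congr_fun (hc x) (f q (w y))
    · have h2 : f q' ∘ₗ w = 0 := map_eq_zero_of_ne hq _
      rw [LinearMap.comp_assoc w, h2]
      simp
  have h2 := mem_mkIdeal.mp h1 1 w
  apply hw
  rw [lamV_one] at h2
  exact h2

theorem star (hU : Umap f v) (hav : ∀ q, lamV (a q) = v q ∘ₗ f q)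
    (hsurj : ∀ p, ∃ q, Rel a q p) (q p : Cls R)
    (hp : ∀ p', Rel a q p' → p' = p) (b : R) (hb : b ∈ P p)
    (w : Sim q →ₗ[Rᵐᵒᵖ] (rightSocle R)) : lamV b ∘ₗ w = 0 := by
  by_contra hne
  obtain ⟨x, hx⟩ := claimA a f v hav hsurj q (lamV b) w hne
  obtain ⟨y, hy⟩ := claimB a f v hav hsurj q _ hx
  set δ : Sim q →ₗ[Rᵐᵒᵖ] Sim q := f q ∘ₗ lamV y ∘ₗ lamV b ∘ₗ lamV x ∘ₗ v q with hδ
  have hz : a q * y * b * x * a q ∈ radOver (annSocle R) := by
    apply mem_radOver_of_P (fun r x hx => annSocle_mul_left r hx)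
    intro p' hp'
    by_cases hap : a q ∈ P p'
    · exact prim_mul_left hap _
    · have h1 : p' = p := hp p' ⟨hp', hap⟩
      subst h1
      apply prim_mul_right
      apply prim_mul_right
      exact prim_mul_left hb _
  have h1 : lamV (a q * y * b * x * a q) = v q ∘ₗ δ ∘ₗ f q := by
    simp only [lamV_mul, hav q, hδ]
    rfl
  exact hy (hU q _ hz δ h1)

/-- if `g` is injective on `I` and moves some nonzero element of `I` into the socle then `I` meets
the socle -/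
theorem meets_socle {I : Submodule Rᵐᵒᵖ R} (g : R →ₗ[Rᵐᵒᵖ] R) (hg : ∀ y ∈ I, g y = 0 → y = 0)
    {y : R} (hy : y ∈ I) (hy0 : y ≠ 0) (hgy : g y ∈ rightSocle R) : I ⊓ rightSocle R ≠ ⊥ := by
  let N : Submodule Rᵐᵒᵖ R := Submodule.span Rᵐᵒᵖ {y}
  have hNI : N ≤ I := by rw [Submodule.span_singleton_le_iff_mem]; exact hy
  have hNs : ∀ z ∈ N, g z ∈ rightSocle R := by
    intro z hz
    obtain ⟨r, rfl⟩ := Submodule.mem_span_singleton.mp hz
    rw [map_smul]
    exact Submodule.smul_mem _ _ hgy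
  let h : N →ₗ[Rᵐᵒᵖ] (rightSocle R) := (g ∘ₗ N.subtype).codRestrict _ (fun z => hNs z z.2)
  have hinj : Injective h := by
    rw [← LinearMap.ker_eq_bot, LinearMap.ker_eq_bot']
    intro z hz
    apply Subtype.ext
    exact hg z (hNI z.2) (congrArg Subtype.val hz)
  have hss : IsSemisimpleModule Rᵐᵒᵖ N := IsSemisimpleModule.of_injective h hinj
  rcases IsSemisimpleModule.eq_bot_or_exists_simple_le N with h0 | ⟨m, hmN, hm⟩
  · exfalso
    apply hy0
    have : y ∈ N := Submodule.mem_span_singleton_self y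
    rw [h0] at this
    exact (Submodule.mem_bot _).mp this
  · have ha : IsAtom m := isSimpleModule_iff_isAtom.mp hm
    intro hbot
    have : m ≤ I ⊓ rightSocle R := le_inf (hmN.trans hNI) (atom_le_socle ha)
    rw [hbot] at this
    exact ha.1 (le_bot_iff.mp this)

theorem socle_essential (hK : RightKasch R) (hD : FinDense R)
    (hsurj' : ∀ p : Cls R, ∃ q : Cls R, ∀ b ∈ P p, ∀ w : Sim q →ₗ[Rᵐᵒᵖ] (rightSocle R),
      lamV b ∘ₗ w = 0) :
    ∀ I : Submodule Rᵐᵒᵖ R, I ≠ ⊥ → I ⊓ rightSocle R ≠ ⊥ := by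
  intro I₀ hI₀ hI₀'
  let s : Set R := {b | ∀ I : Submodule Rᵐᵒᵖ R, I ≠ ⊥ → I ⊓ rightSocle R = ⊥ →
    ∃ y ∈ I, y ≠ 0 ∧ b * y = 0}
  let 𝔮 : TwoSidedIdeal R := mkIdeal s
    (by
      intro I hI _
      obtain ⟨y, hy, hy0⟩ := (Submodule.ne_bot_iff _).mp hI
      exact ⟨y, hy, hy0, zero_mul y⟩)
    (by
      intro b b' hb hb' I hI hI'
      obtain ⟨y, hy, hy0, hby⟩ := hb I hI hI'
      let I2 : Submodule Rᵐᵒᵖ R := I ⊓ LinearMap.ker (lam b)
      have h2 : I2 ≠ ⊥ := by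
        rw [Submodule.ne_bot_iff]
        exact ⟨y, ⟨hy, hby⟩, hy0⟩
      have h2' : I2 ⊓ rightSocle R = ⊥ := by
        rw [eq_bot_iff] at hI' ⊢
        exact le_trans (inf_le_inf_right _ inf_le_left) hI'
      obtain ⟨z, hz, hz0, hbz⟩ := hb' I2 h2 h2'
      refine ⟨z, hz.1, hz0, ?_⟩
      have h3 : b * z = 0 := hz.2
      rw [add_mul, h3, hbz, add_zero])
    (by
      intro r b hb I hI hI'
      obtain ⟨y, hy, hy0, hby⟩ := hb I hI hI'
      exact ⟨y, hy, hy0, by rw [mul_assoc, hby, mul_zero]⟩)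
    (by
      intro r b hb I hI hI'
      by_cases hr : ∃ y ∈ I, y ≠ 0 ∧ r * y = 0
      · obtain ⟨y, hy, hy0, hry⟩ := hr
        exact ⟨y, hy, hy0, by rw [mul_assoc, hry, mul_zero]⟩
      · push Not at hr
        have hinj : ∀ y ∈ I, lam r y = 0 → y = 0 := by
          intro y hy h0
          by_contra hne
          exact hr y hy hne h0
        have h2 : I.map (lam r) ≠ ⊥ := by
          obtain ⟨y, hy, hy0⟩ := (Submodule.ne_bot_iff _).mp hI
          rw [Submodule.ne_bot_iff]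
          exact ⟨lam r y, ⟨y, hy, rfl⟩, hr y hy hy0⟩
        have h2' : I.map (lam r) ⊓ rightSocle R = ⊥ := by
          rw [eq_bot_iff]
          rintro _ ⟨⟨y, hy, rfl⟩, hyV⟩
          by_contra hne
          have hy0 : y ≠ 0 := by
            rintro rfl
            apply hne
            rw [map_zero]; exact Submodule.zero_mem _
          exact meets_socle (lam r) hinj hy hy0 hyV hI'
        obtain ⟨_, ⟨y, hy, rfl⟩, hz0, hbz⟩ := hb _ h2 h2'
        refine ⟨y, hy, ?_, ?_⟩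
        · rintro rfl
          exact hz0 (map_zero _)
        · rw [mul_assoc]; exact hbz)
  have h1 : (1 : R) ∉ 𝔮 := by
    intro h
    obtain ⟨y, _, hy0, hby⟩ := mem_mkIdeal.mp h I₀ hI₀ hI₀'
    rw [one_mul] at hby
    exact hy0 hby
  obtain ⟨p, hp⟩ := exists_P 𝔮 h1
  obtain ⟨q, hq⟩ := hsurj' p
  obtain ⟨C, hC⟩ := exists_max_disjoint (rightSocle R)
  have hVC : rightSocle R ⊓ C = ⊥ := hC.prop
  -- the map V × C → R, and the projection to V
  let j : ((rightSocle R) × C) →ₗ[Rᵐᵒᵖ] R :=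
    (rightSocle R).subtype.coprod C.subtype
  have hj : Injective j := by
    rw [← LinearMap.ker_eq_bot, LinearMap.ker_eq_bot']
    rintro ⟨x, y⟩ hxy
    have h2 : (x : R) + y = 0 := by simpa [j] using hxy
    have h3 : (x : R) = -y := eq_neg_of_add_eq_zero_left h2
    have h4 : (x : R) ∈ rightSocle R ⊓ C := ⟨x.2, by rw [h3]; exact C.neg_mem y.2⟩
    rw [hVC] at h4
    have h5 : (x : R) = 0 := (Submodule.mem_bot _).mp h4
    have h6 : (y : R) = 0 := by rw [h5, zero_add] at h2; exact h2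
    exact Prod.ext (Subtype.ext h5) (Subtype.ext h6)
  obtain ⟨F, hF⟩ := hD _ j hj ((rightSocle R).subtype ∘ₗ LinearMap.fst _ _ _)
  have hF' : ∀ (x : rightSocle R) (y : C), (x : R) = 0 ↔ ∀ b ∈ F, b * ((x : R) + y) = 0 := by
    intro x y
    have := hF (x, y)
    simpa [j] using this
  have hFC : ∀ b ∈ F, ∀ y ∈ C, b * y = 0 := by
    intro b hb y hy
    have := (hF' 0 ⟨y, hy⟩).mp rfl b hb
    simpa using this
  have hFq : ∀ b ∈ F, b ∈ 𝔮 := by
    intro b hb
    refine mem_mkIdeal.mpr ?_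
    intro I hI hI'
    by_contra hc
    push Not at hc
    have hinj : ∀ y ∈ I, lam b y = 0 → y = 0 := by
      intro y hy h0
      by_contra hne
      exact hc y hy hne h0
    obtain ⟨y, hy, hy0⟩ := (Submodule.ne_bot_iff _).mp (sup_essential_of_max hC I hI)
    obtain ⟨hyVC, hyI⟩ := Submodule.mem_inf.mp hy
    obtain ⟨x, hx, z, hz, rfl⟩ := Submodule.mem_sup.mp hyVC
    apply meets_socle (lam b) hinj hyI hy0 ?_ hI'
    rw [lam_apply, mul_add, hFC b hb z hz, add_zero]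
    exact socle_invariant (lam b) hx
  obtain ⟨w, f', hf'⟩ := exists_socle_section hK (Sim q)
  have := IsSimpleModule.nontrivial Rᵐᵒᵖ (Sim q)
  obtain ⟨t, ht⟩ := exists_ne (0 : Sim q)
  apply ht
  have h2 : w t = 0 := by
    apply Subtype.ext
    apply (hF' (w t) 0).mpr
    intro b hb
    have h3 := LinearMap.congr_fun (hq b (hp b (hFq b hb)) w) t
    have h4 : b * ((w t : rightSocle R) : R) = 0 := congrArg Subtype.val h3
    simpa using h4
  have h3 := LinearMap.congr_fun hf' t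
  rw [LinearMap.comp_apply, h2, map_zero] at h3
  exact h3.symm

end

/-- The main theorem for finitely many simple modules, with the criterion `(U)`. -/
theorem core {R : Type u} [Ring R] (hK : RightKasch R) (hD : FinDense R)
    (hfin : Finite (Cls R)) (a : Cls R → R) (f : ∀ q : Cls R, (rightSocle R) →ₗ[Rᵐᵒᵖ] Sim q)
    (v : ∀ q : Cls R, Sim q →ₗ[Rᵐᵒᵖ] (rightSocle R)) (hav : ∀ q, lamV (a q) = v q ∘ₗ f q)
    (hU : Umap f v) : SocleFGEssential R := by
  obtain ⟨c, hc, hc1, hc2⟩ := exists_bij a f v hU hav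
  have hsurj : ∀ p, ∃ q, Rel a q p := by
    intro p
    obtain ⟨q, rfl⟩ := hc.2 p
    exact ⟨q, hc1 q⟩
  refine ⟨socle_fg a f v hav hsurj, socle_essential hK hD ?_⟩
  intro p
  obtain ⟨q, rfl⟩ := hc.2 p
  exact ⟨q, fun b hb w => star a f v hU hav hsurj q (c q) (hc2 q) b hb w⟩

/-- The criterion in terms of the maximal submodules of the socle. -/
theorem core' {R : Type u} [Ring R] (hK : RightKasch R) (hD : FinDense R)
    (hfin : Finite (Cls R))
    (h : ∀ q : Cls R, ∃ f : (rightSocle R) →ₗ[Rᵐᵒᵖ] Sim q, f ≠ 0 ∧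
      ∀ z ∈ radOver (annSocle R), (∀ x, f x = 0 → lamV z x = 0) → lamV z = 0) :
    SocleFGEssential R := by
  choose f hf hz using h
  choose a v hv hav using fun q => exists_rank_one hD (f q) (hf q)
  refine core hK hD hfin a f v hav ?_
  intro q z hzr δ hδ
  have h1 : lamV z = 0 := by
    apply hz q z hzr
    intro x hx
    rw [hδ]
    simp only [LinearMap.comp_apply, hx, map_zero]
  rw [hδ] at h1
  apply LinearMap.ext
  intro t
  obtain ⟨x, rfl⟩ := LinearMap.surjective_of_ne_zero (hf q) t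
  apply LinearMap.injective_of_ne_zero (hv q)
  rw [LinearMap.zero_apply, map_zero]
  exact LinearMap.congr_fun h1 x

theorem radOver_annSocle_mul {R : Type u} [Ring R] {a b : R} (hb : b ∈ radOver (annSocle R)) :
    a * b ∈ radOver (annSocle R) := by
  apply mem_radOver_of_P (fun r x hx => annSocle_mul_left r hx)
  intro q hq
  exact prim_mul_left (radOver_mem_P hb q hq) _

/-- The main theorem for finitely many simple modules, when the radical acts trivially. -/
theorem finite_case {R : Type u} [Ring R] (hK : RightKasch R) (hD : FinDense R)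
    (hfin : Finite (Cls R)) (hN : RadicalActsTrivially R) : SocleFGEssential R := by
  apply core' hK hD hfin
  intro q
  by_contra hc
  push Not at hc
  obtain ⟨s, f0, hf0⟩ := exists_socle_section hK (Sim q)
  have hf0' : f0 ≠ 0 := by
    rintro rfl
    exact id_ne_zero' (Sim q) hf0.symm
  obtain ⟨f, v, ⟨z, hz, hzv⟩, hfv⟩ := lemmaT (S := Sim q)
    (fun g => ∃ z ∈ radOver (annSocle R), lamV z = g)
    (by
      rintro g h ⟨a, ha, rfl⟩ ⟨b, hb, rfl⟩
      exact ⟨a * b, radOver_annSocle_mul hb, lamV_mul a b⟩)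
    (by
      intro f hf
      obtain ⟨z, hz, hzk, hz0⟩ := hc f hf
      obtain ⟨v, hv⟩ := exists_factor f (LinearMap.surjective_of_ne_zero hf) (lamV z) hzk
      refine ⟨v, ?_, z, hz, hv⟩
      rintro rfl
      apply hz0
      rw [hv, LinearMap.zero_comp]) f0 hf0'
  apply hfv
  have hv : v ≠ 0 := by
    rintro rfl
    exact hfv (LinearMap.comp_zero _)
  apply noinv hN hz v hv
  rw [hzv]; rfl

end Pool.MP_9c7981_al.H7
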