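import Pool.Agent.Lib.MP_9c7981_al_H7.FiniteCase

/-!
# Rings in which proper two-sided ideals have nonzero right annihilators
-/

set_option autoImplicit false
universe u v

namespace Pool.MP_9c7981_al.H7

open Function

section
variable {R : Type u} [Ring R]

theorem exists_ideal (s : Set R) (h0 : (0 : R) ∈ s) (hadd : ∀ {x y}, x ∈ s → y ∈ s → x + y ∈ s)
    (hl : ∀ (r : R) {x}, x ∈ s → r * x ∈ s) (hr : ∀ (r : R) {x}, x ∈ s → x * r ∈ s) :
    ∃ I : TwoSidedIdeal R, ∀ x, x ∈ I ↔ x ∈ s :=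
  ⟨mkIdeal s h0 hadd hl hr, fun _ => mem_mkIdeal⟩

/-- a finite subset of the annihilator of the socle which is faithful away from the socle -/
theorem exists_finset_compl (hD : FinDense R) :
    ∃ F : Finset R, (∀ b ∈ F, b ∈ annSocle R) ∧ ∀ x : R, x ≠ 0 → (∀ b ∈ F, b * x = 0) →
      ∃ r : R, x * r ≠ 0 ∧ x * r ∈ rightSocle R := by
  obtain ⟨C, hC⟩ := exists_max_disjoint (rightSocle R)
  have hVC : rightSocle R ⊓ C = ⊥ := hC.prop
  let j : ((rightSocle R) × C) →ₗ[Rᵐᵒᵖ] R :=
    (rightSocle R).subtype.coprod C.subtype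
  have hj : Injective j := by
    rw [← LinearMap.ker_eq_bot, LinearMap.ker_eq_bot']
    rintro ⟨x, y⟩ hxy
    have h2 : (x : R) + y = 0 := by simpa [j] using hxy
    have h3 : (x : R) = -y := eq_neg_of_add_eq_zero_left h2
    have h4 : (x : R) ∈ rightSocle R ⊓ C := ⟨x.2, by rw [h3]; exact C.neg_mem y.2⟩
    rw [hVC] at h4
    have h5 : (x : R) = 0 := (Submodule.mem_bot _).mp h4
    have h6 : (y : R) = 0 := by rw [h5, zero_add] at h2; exact h2
    exact Prod.ext (Subtype.ext h5) (Subtype.ext h6)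
  obtain ⟨F, hF⟩ := hD _ j hj (C.subtype ∘ₗ LinearMap.snd _ _ _)
  have hF' : ∀ (x : rightSocle R) (y : C), (y : R) = 0 ↔ ∀ b ∈ F, b * ((x : R) + y) = 0 := by
    intro x y
    have := hF (x, y)
    simpa [j] using this
  refine ⟨F, ?_, ?_⟩
  · intro b hb x hx
    have := (hF' ⟨x, hx⟩ 0).mp rfl b hb
    simpa using this
  · intro x hx hFx
    have hne : Submodule.span Rᵐᵒᵖ {x} ≠ ⊥ := by
      rw [Ne, Submodule.span_singleton_eq_bot]; exact hx
    obtain ⟨y, hy, hy0⟩ := (Submodule.ne_bot_iff _).mp (sup_essential_of_max hC _ hne)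
    obtain ⟨hyVC, hyx⟩ := Submodule.mem_inf.mp hy
    obtain ⟨r, rfl⟩ := Submodule.mem_span_singleton.mp hyx
    have hr : r • x = x * r.unop := rfl
    obtain ⟨s, hs, t, ht, hst⟩ := Submodule.mem_sup.mp hyVC
    have h1 : t = 0 := by
      apply (hF' ⟨s, hs⟩ ⟨t, ht⟩).mpr
      intro b hb
      change b * (s + t) = 0
      rw [hst, hr, ← mul_assoc, hFx b hb, zero_mul]
    refine ⟨r.unop, ?_, ?_⟩
    · rw [← hr]; exact hy0
    · rw [← hr, ← hst, h1, add_zero]; exact hs

/-- the elements of finite rank on the socle -/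
def finRank (R : Type u) [Ring R] : TwoSidedIdeal R :=
  mkIdeal {b : R | ∃ W : Submodule Rᵐᵒᵖ (rightSocle R), W.FG ∧ LinearMap.range (lamV b) ≤ W}
    (⟨⊥, Submodule.fg_bot, by rw [lamV_zero, LinearMap.range_zero]⟩)
    (by
      rintro x y ⟨W, hW, hxW⟩ ⟨W', hW', hyW'⟩
      refine ⟨W ⊔ W', hW.sup hW', ?_⟩
      rw [lamV_add]
      rintro _ ⟨z, rfl⟩
      exact Submodule.add_mem_sup (hxW ⟨z, rfl⟩) (hyW' ⟨z, rfl⟩))
    (by
      rintro r x ⟨W, hW, hxW⟩
      refine ⟨W.map (lamV r), hW.map _, ?_⟩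
      rw [lamV_mul]
      rintro _ ⟨z, rfl⟩
      exact ⟨_, hxW ⟨z, rfl⟩, rfl⟩)
    (by
      rintro r x ⟨W, hW, hxW⟩
      refine ⟨W, hW, ?_⟩
      rw [lamV_mul]
      rintro _ ⟨z, rfl⟩
      exact hxW ⟨_, rfl⟩)

theorem mem_finRank {b : R} : b ∈ finRank R ↔
    ∃ W : Submodule Rᵐᵒᵖ (rightSocle R), W.FG ∧ LinearMap.range (lamV b) ≤ W := by
  unfold finRank mkIdeal
  rw [TwoSidedIdeal.mem_mk']
  rfl

theorem finRank_one_iff : (1 : R) ∈ finRank R ↔ (rightSocle R).FG := by
  rw [mem_finRank]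
  constructor
  · rintro ⟨W, hW, h2⟩
    rw [lamV_one, LinearMap.range_id, top_le_iff] at h2
    rw [h2] at hW
    exact (Submodule.fg_top _).mp hW
  · intro h
    exact ⟨⊤, (Submodule.fg_top _).mpr h, le_top⟩

theorem rank_one_mem_finRank {S : Type*} [AddCommGroup S] [Module Rᵐᵒᵖ S]
    [IsSimpleModule Rᵐᵒᵖ S] {a : R} {f : (rightSocle R) →ₗ[Rᵐᵒᵖ] S}
    {v : S →ₗ[Rᵐᵒᵖ] (rightSocle R)} (h : lamV a = v ∘ₗ f) : a ∈ finRank R := by
  rw [mem_finRank]
  refine ⟨LinearMap.range v, ?_, ?_⟩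
  · rw [LinearMap.range_eq_map]
    exact Submodule.FG.map _ Module.Finite.fg_top
  · rw [h]
    exact LinearMap.range_comp_le_range _ _

theorem exists_atom_le_span {y : R} (hy : y ∈ rightSocle R) (hy0 : y ≠ 0) :
    ∃ K : Submodule Rᵐᵒᵖ R, IsAtom K ∧ ∀ t ∈ K, ∃ r : R, t = y * r := by
  let N : Submodule Rᵐᵒᵖ R := Submodule.span Rᵐᵒᵖ {y}
  have hNV : N ≤ rightSocle R := by rw [Submodule.span_singleton_le_iff_mem]; exact hy
  have hss : IsSemisimpleModule Rᵐᵒᵖ N :=
    IsSemisimpleModule.of_injective (Submodule.inclusion hNV) (Submodule.inclusion_injective hNV)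
  rcases IsSemisimpleModule.eq_bot_or_exists_simple_le N with h0 | ⟨m, hmN, hm⟩
  · exfalso
    apply hy0
    have : y ∈ N := Submodule.mem_span_singleton_self y
    rw [h0] at this
    exact (Submodule.mem_bot _).mp this
  · refine ⟨m, isSimpleModule_iff_isAtom.mp hm, ?_⟩
    intro t ht
    obtain ⟨r, hr⟩ := Submodule.mem_span_singleton.mp (hmN ht)
    exact ⟨r.unop, hr.symm⟩

theorem socle_fg_of_ann (hD : FinDense R) (hA : ProperIdealsAnnihilated R) :
    (rightSocle R).FG := by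
  rw [← finRank_one_iff]
  by_contra h1
  obtain ⟨x, hx0, hx⟩ := hA (finRank R) (by
    intro a ha
    rw [mem_finRank]
    refine ⟨⊥, Submodule.fg_bot, ?_⟩
    rw [mem_annSocle_iff.mp ha, LinearMap.range_zero]) h1
  obtain ⟨F, hF, hFx⟩ := exists_finset_compl hD
  obtain ⟨r, hr0, hr⟩ := hFx x hx0 (fun b hb => hx b (by
    rw [mem_finRank]
    refine ⟨⊥, Submodule.fg_bot, ?_⟩
    rw [mem_annSocle_iff.mp (hF b hb), LinearMap.range_zero]))
  obtain ⟨K, hK, hKr⟩ := exists_atom_le_span hr hr0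
  have hKs : IsSimpleModule Rᵐᵒᵖ K := isSimpleModule_iff_isAtom.mpr hK
  let w : K →ₗ[Rᵐᵒᵖ] (rightSocle R) := Submodule.inclusion (atom_le_socle hK)
  have hw : Injective w := Submodule.inclusion_injective _
  obtain ⟨f, hf⟩ := IsSemisimpleModule.extension_property w hw LinearMap.id
  have hf0 : f ≠ 0 := by
    rintro rfl
    exact id_ne_zero' (R := R) K (by rw [← hf]; rfl)
  obtain ⟨a, v, hv, hav⟩ := exists_rank_one hD f hf0
  apply hv
  apply LinearMap.ext
  intro t
  have h2 : v t = lamV a (w t) := by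
    rw [hav]
    have := LinearMap.congr_fun hf t
    simp only [LinearMap.comp_apply, LinearMap.id_apply] at this ⊢
    rw [this]
  rw [h2]
  apply Subtype.ext
  obtain ⟨r', hr'⟩ := hKr t t.2
  change a * (t : R) = 0
  rw [hr', ← mul_assoc, ← mul_assoc, hx a (rank_one_mem_finRank hav), zero_mul, zero_mul]

/-- finitely many simples if the socle is finitely generated (right Kasch) -/
theorem finite_cls_of_fg (hK : RightKasch R) (h : (rightSocle R).FG) : Finite (Cls R) := by
  have hfin : Module.Finite Rᵐᵒᵖ (rightSocle R) := Module.Finite.iff_fg.mpr h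
  obtain ⟨n, S, e, hS⟩ := IsSemisimpleModule.exists_linearEquiv_fin_dfinsupp Rᵐᵒᵖ (rightSocle R)
  have h1 : ∀ q : Cls R, ∃ i : Fin n, Nonempty (Sim q ≃ₗ[Rᵐᵒᵖ] S i) := by
    intro q
    obtain ⟨w, f, hwf⟩ := exists_socle_section hK (Sim q)
    have hw0 : e.toLinearMap ∘ₗ w ≠ 0 := by
      intro h0
      apply id_ne_zero' (R := R) (Sim q)
      rw [← hwf]
      have : w = 0 := by
        apply LinearMap.ext
        intro t
        apply e.injective
        rw [LinearMap.zero_apply, map_zero]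
        exact LinearMap.congr_fun h0 t
      rw [this, LinearMap.comp_zero]
    have h2 : ∃ i, DFinsupp.lapply (M := fun i => S i) i ∘ₗ (e.toLinearMap ∘ₗ w) ≠ 0 := by
      by_contra hc
      push Not at hc
      apply hw0
      apply LinearMap.ext
      intro t
      apply DFinsupp.ext
      intro i
      exact LinearMap.congr_fun (hc i) t
    obtain ⟨i, hi⟩ := h2
    have h3 := hS i
    let g : Sim q →ₗ[Rᵐᵒᵖ] S i := DFinsupp.lapply (M := fun i => S i) i ∘ₗ (e.toLinearMap ∘ₗ w)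
    have hg : g ≠ 0 := hi
    have hgb : Bijective g := by
      have := @LinearMap.bijective_of_ne_zero Rᵐᵒᵖ _ (Sim q) _ _ (S i) _ _ _ _ g hg
      exact this
    exact ⟨i, ⟨LinearEquiv.ofBijective g hgb⟩⟩
  choose φ hφ using h1
  apply Finite.of_injective φ
  intro q q' hqq'
  obtain ⟨e1⟩ := hφ q
  obtain ⟨e2⟩ := hφ q'
  rw [← hqq'] at e2
  exact cls_eq_of_iso ⟨e1.trans e2.symm⟩

/-- the criterion with parts of the socle killed by the radical -/
theorem core_of_killed (hK : RightKasch R) (hD : FinDense R) (hfin : Finite (Cls R))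
    (h : ∀ q : Cls R, ∃ w : Sim q →ₗ[Rᵐᵒᵖ] (rightSocle R), w ≠ 0 ∧
      ∀ z ∈ radOver (annSocle R), lamV z ∘ₗ w = 0) : SocleFGEssential R := by
  apply core' hK hD hfin
  intro q
  obtain ⟨w, hw0, hw⟩ := h q
  obtain ⟨f, hf⟩ := IsSemisimpleModule.extension_property w (LinearMap.injective_of_ne_zero hw0)
    LinearMap.id
  have hf0 : f ≠ 0 := by
    rintro rfl
    exact id_ne_zero' (Sim q) (by rw [← hf]; rfl)
  refine ⟨f, hf0, ?_⟩
  intro z hz hzf
  obtain ⟨v, hv⟩ := exists_factor f (LinearMap.surjective_of_ne_zero hf0) (lamV z) hzf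
  have h1 : v = 0 := by
    have h2 := hw z hz
    rw [hv, LinearMap.comp_assoc, hf, LinearMap.comp_id] at h2
    exact h2
  rw [hv, h1, LinearMap.zero_comp]

/-- simple modules are isomorphic to some `Sim q` -/
theorem exists_sim_iso (S : Type*) [AddCommGroup S] [Module Rᵐᵒᵖ S] [IsSimpleModule Rᵐᵒᵖ S] :
    ∃ q : Cls R, Nonempty (Sim q ≃ₗ[Rᵐᵒᵖ] S) := by
  have := IsSimpleModule.nontrivial Rᵐᵒᵖ S
  obtain ⟨t, ht⟩ := exists_ne (0 : S)
  let g : R →ₗ[Rᵐᵒᵖ] S :=
    { toFun := fun r => MulOpposite.op r • t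
      map_add' := fun x y => by rw [MulOpposite.op_add, add_smul]
      map_smul' := fun r x => by
        rw [RingHom.id_apply, ← mul_smul]
        rfl }
  have hg : g ≠ 0 := by
    intro h
    apply ht
    have := LinearMap.congr_fun h 1
    simpa [g] using this
  have hs := LinearMap.surjective_of_ne_zero hg
  have hc : IsCoatom (LinearMap.ker g) := LinearMap.isCoatom_ker_of_surjective hs
  obtain ⟨q, ⟨e⟩⟩ := exists_cls hc
  exact ⟨q, ⟨e.symm.trans (g.quotKerEquivOfSurjective hs)⟩⟩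

/-- the ideal of elements killing the homogeneous component of the class `q`, as a set -/
def killComp (q : Cls R) : Set R := {b | ∀ w : Sim q →ₗ[Rᵐᵒᵖ] (rightSocle R), lamV b ∘ₗ w = 0}

theorem killComp_left (q : Cls R) (r : R) {b : R} (hb : b ∈ killComp q) : r * b ∈ killComp q := by
  intro w
  rw [lamV_mul, LinearMap.comp_assoc, hb w, LinearMap.comp_zero]

theorem killComp_right (q : Cls R) (r : R) {b : R} (hb : b ∈ killComp q) :
    b * r ∈ killComp q := by
  intro w
  rw [lamV_mul, LinearMap.comp_assoc]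
  exact hb _

theorem annSocle_sub_killComp (q : Cls R) {b : R} (hb : b ∈ annSocle R) : b ∈ killComp q := by
  intro w
  rw [mem_annSocle_iff.mp hb, LinearMap.zero_comp]

theorem exists_radIdeal (I : Set R) (hl : ∀ r : R, ∀ a ∈ I, r * a ∈ I) :
    ∃ J : TwoSidedIdeal R, ∀ x, x ∈ J ↔ x ∈ radOver I :=
  exists_ideal (radOver I)
    (by intro M _ _; exact M.zero_mem)
    (by intro x y hx hy M hM hIM; exact M.add_mem (hx M hM hIM) (hy M hM hIM))
    (by
      intro r x hx
      apply mem_radOver_of_P hl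
      intro q hq
      exact prim_mul_left (radOver_mem_P hx q hq) _)
    (by
      intro r x hx M hM hIM
      exact right_mul_mem M (hx M hM hIM) r)

noncomputable def radIdeal (I : Set R) (hl : ∀ r : R, ∀ a ∈ I, r * a ∈ I) : TwoSidedIdeal R :=
  (exists_radIdeal I hl).choose

theorem mem_radIdeal {I : Set R} {hl : ∀ r : R, ∀ a ∈ I, r * a ∈ I} {x : R} :
    x ∈ radIdeal I hl ↔ x ∈ radOver I :=
  (exists_radIdeal I hl).choose_spec x

theorem ann_case (hK : RightKasch R) (hD : FinDense R) (hA : ProperIdealsAnnihilated R) :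
    SocleFGEssential R := by
  have hfg := socle_fg_of_ann hD hA
  have hfin := finite_cls_of_fg hK hfg
  apply core_of_killed hK hD hfin
  intro q
  have hl : ∀ r : R, ∀ a ∈ killComp q, r * a ∈ killComp q := fun r a ha => killComp_left q r ha
  -- the killing ideal is proper
  have h1 : (1 : R) ∉ killComp q := by
    intro h
    obtain ⟨w, f, hwf⟩ := exists_socle_section hK (Sim q)
    apply id_ne_zero' (R := R) (Sim q)
    rw [← hwf]
    have := h w
    rw [lamV_one, LinearMap.id_comp] at this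
    rw [this, LinearMap.comp_zero]
  obtain ⟨I0, hI0⟩ := exists_ideal (killComp q)
    (by intro w; rw [lamV_zero, LinearMap.zero_comp])
    (by intro x y hx hy w; rw [lamV_add, LinearMap.add_comp, hx w, hy w, add_zero])
    (fun r {x} hx => killComp_left q r hx) (fun r {x} hx => killComp_right q r hx)
  obtain ⟨p, hp⟩ := exists_P I0 (by rw [hI0]; exact h1)
  have h2 : (1 : R) ∉ radIdeal (killComp q) hl := by
    rw [mem_radIdeal]
    intro h
    have h3 := radOver_mem_P h p (fun x hx => hp x ((hI0 x).mpr hx))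
    exact (rep_coatom p).1 (by
      rw [eq_top_iff]
      intro x _
      have := right_mul_mem (rep p) (mem_of_mem_prim h3) x
      rwa [one_mul] at this)
  have hsub : ∀ a ∈ killComp q, a ∈ radIdeal (killComp q) hl := by
    intro a ha
    rw [mem_radIdeal]
    intro M _ hM
    exact hM a ha
  obtain ⟨x, hx0, hx⟩ := hA (radIdeal (killComp q) hl)
    (fun a ha => hsub a (annSocle_sub_killComp q ha)) h2
  obtain ⟨F, hF, hFx⟩ := exists_finset_compl hD
  obtain ⟨r, hr0, hr⟩ := hFx x hx0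
    (fun b hb => hx b (hsub b (annSocle_sub_killComp q (hF b hb))))
  obtain ⟨K, hKa, hKr⟩ := exists_atom_le_span hr hr0
  have hKs : IsSimpleModule Rᵐᵒᵖ K := isSimpleModule_iff_isAtom.mpr hKa
  obtain ⟨q', ⟨e⟩⟩ := exists_sim_iso (R := R) K
  let w : Sim q' →ₗ[Rᵐᵒᵖ] (rightSocle R) :=
    Submodule.inclusion (atom_le_socle hKa) ∘ₗ e.toLinearMap
  have hwinj : Injective w :=
    (Submodule.inclusion_injective (atom_le_socle hKa)).comp e.injective
  have hw0 : w ≠ 0 := by
    intro h0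
    have := IsSimpleModule.nontrivial Rᵐᵒᵖ (Sim q')
    obtain ⟨t, ht⟩ := exists_ne (0 : Sim q')
    exact ht (hwinj (by rw [h0]; rfl))
  have hwx : ∀ b ∈ radIdeal (killComp q) hl, lamV b ∘ₗ w = 0 := by
    intro b hb
    apply LinearMap.ext
    intro t
    apply Subtype.ext
    obtain ⟨r', hr'⟩ := hKr (e t) (e t).2
    change b * ((e t : K) : R) = 0
    rw [hr', ← mul_assoc, ← mul_assoc, hx b hb, zero_mul, zero_mul]
  -- `q' = q`
  have hqq' : q = q' := by
    by_contra hne
    let Y : Submodule Rᵐᵒᵖ (rightSocle R) :=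
      ⨆ w : Sim q →ₗ[Rᵐᵒᵖ] (rightSocle R), LinearMap.range w
    obtain ⟨F3, hF3⟩ := exists_finset_ker hD Y
    have hF3k : ∀ b ∈ F3, b ∈ killComp q := by
      intro b hb w'
      apply LinearMap.ext
      intro t
      apply (hF3 (w' t)).mp _ b hb
      exact Submodule.mem_iSup_of_mem w' ⟨t, rfl⟩
    have hwY : ∀ t, w t ∈ Y := by
      intro t
      rw [hF3]
      intro b hb
      exact LinearMap.congr_fun (hwx b (hsub b (hF3k b hb))) t
    obtain ⟨f, hf⟩ := IsSemisimpleModule.extension_property w hwinj LinearMap.id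
    have hfY : Y ≤ LinearMap.ker f := by
      apply iSup_le
      rintro w' _ ⟨t, rfl⟩
      exact LinearMap.congr_fun (map_eq_zero_of_ne hne (f ∘ₗ w')) t
    apply id_ne_zero' (R := R) (Sim q')
    rw [← hf]
    apply LinearMap.ext
    intro t
    exact hfY (hwY t)
  subst hqq'
  refine ⟨w, hw0, ?_⟩
  intro z hz
  apply hwx
  rw [mem_radIdeal]
  intro M hM hIM
  exact hz M hM (fun a ha => hIM a (annSocle_sub_killComp q ha))

end

end Pool.MP_9c7981_al.H7
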