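import Pool.Agent.Lib.MP_9c7981_al_H7.Semilocal

/-!
# The main theorems
-/

set_option autoImplicit false
universe u v

namespace Pool.MP_9c7981_al.H7

open Function

/-- a right Kasch ring isomorphic to its opposite ring is left Kasch -/
theorem leftKasch_of_op {R : Type u} [Ring R] (hK : RightKasch R) (σ : R ≃+* Rᵐᵒᵖ) :
    LeftKasch R := by
  intro M _ _ hM
  let _ : Module Rᵐᵒᵖ M := Module.compHom M (σ.symm : Rᵐᵒᵖ ≃+* R).toRingHom
  have hsmul : ∀ (r : Rᵐᵒᵖ) (m : M), r • m = (σ.symm r) • m := fun _ _ => rfl
  -- M is simple as a right module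
  have hM' : IsSimpleModule Rᵐᵒᵖ M := by
    rw [isSimpleModule_iff_toSpanSingleton_surjective] at hM ⊢
    refine ⟨hM.1, ?_⟩
    intro m hm y
    obtain ⟨r, hr⟩ := hM.2 m hm y
    refine ⟨σ r, ?_⟩
    rw [LinearMap.toSpanSingleton_apply] at hr ⊢
    rw [hsmul, σ.symm_apply_apply]
    exact hr
  obtain ⟨f, hf⟩ := hK M hM'
  refine ⟨{ toFun := fun m => σ.symm (MulOpposite.op (f m))
            map_add' := fun x y => by rw [map_add, MulOpposite.op_add, map_add]
            map_smul' := fun r x => ?_ }, ?_⟩
  · rw [RingHom.id_apply, smul_eq_mul]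
    have h1 : r • x = (σ r) • x := by rw [hsmul, σ.symm_apply_apply]
    have h2 : f (r • x) = f x * (σ r).unop := by
      rw [h1, map_smul]
      rfl
    rw [h2, MulOpposite.op_mul, map_mul, MulOpposite.op_unop, σ.symm_apply_apply]
  · intro x y hxy
    apply hf
    exact MulOpposite.op_injective (σ.symm.injective hxy)

theorem left_annihilators_main (R : Type u) [Ring R] (hK : RightKasch R) (hT : RightGenRTight R)
    (h : ProperIdealsAnnihilated R ∨ LeftKasch R ∨ Nonempty (R ≃+* Rᵐᵒᵖ)) :
    SocleFGEssential R := by
  have hD := finDense_of_tight hT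
  rcases h with h | h | h
  · exact ann_case hK hD h
  · exact ann_case hK hD (annihilated_of_leftKasch h)
  · obtain ⟨σ⟩ := h
    exact ann_case hK hD (annihilated_of_leftKasch (leftKasch_of_op hK σ))

theorem nil_radical_main (R : Type u) [Ring R] (hK : RightKasch R) (hT : RightGenRTight R)
    (h : (CompletelyNilModSing R ∧ (FinitelyManySimples R ∨ BoundedHomogeneousLength R ∨
      WeaklyTNilpotentModSing R ∨ PIModSing R)) ∨ BoundedIndexModSing R ∨
      SemilocalNilModSing R) :
    SocleFGEssential R := by
  have hD := finDense_of_tight hT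
  rcases h with ⟨hnil, h | h | h | h⟩ | h | h
  · exact finite_case hK hD (finite_cls h) (trivially_of_completelyNil hnil)
  · exact finite_case hK hD (finite_of_boundedLength hK hD hnil h)
      (trivially_of_completelyNil hnil)
  · exact finite_case hK hD (finite_of_weak hK hD hnil h) (trivially_of_completelyNil hnil)
  · exact finite_case hK hD (finite_of_weak hK hD hnil (weak_of_pi h))
      (trivially_of_completelyNil hnil)
  · have hnil := completelyNil_of_bounded h
    exact finite_case hK hD (finite_of_weak hK hD hnil (weak_of_bounded h))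
      (trivially_of_completelyNil hnil)
  · exact finite_case hK hD (finite_of_semilocal h.1) (trivially_of_nil (nil_of_semilocal h))

theorem finite_simples_main (R : Type u) [Ring R] (hK : RightKasch R) (hT : RightGenRTight R)
    (hfin : FinitelyManySimples R)
    (h : RadicalFaithfulOnHyperplane R ∨ RadicalActsTrivially R ∨ SimplesKilledByRadical R ∨
      ActionsInvertible R ∨
      ∃ (k : Type v) (_ : Field k) (_ : Algebra k R), AlgebraicOnMinimal k R) :
    SocleFGEssential R := by
  have hD := finDense_of_tight hT
  have hf := finite_cls hfin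
  rcases h with h | h | h | h | ⟨k, _, _, h⟩
  · exact hyperplane_case hK hD hf h
  · exact finite_case hK hD hf h
  · exact killed_case hK hD hf h
  · exact finite_case hK hD hf (trivially_of_invertible h)
  · exact finite_case hK hD hf (trivially_of_invertible (invertible_of_algebraic k h))

theorem left_essential_main (R : Type u) [Ring R] (hK : RightKasch R) (hT : RightGenRTight R)
    (a : R) (ha : a ≠ 0) : ∃ c : R, c * a ≠ 0 ∧ c * a ∈ rightSocle R :=
  socle_left_essential hK (finDense_of_tight hT) a ha

end Pool.MP_9c7981_al.H7
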