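import Pool.Agent.Lib.MP_9c7981_al_H7.Cor

/-!
# Semilocal rings
-/

set_option autoImplicit false
universe u v

namespace Pool.MP_9c7981_al.H7

open Function

section
variable {R : Type u} [Ring R]

theorem jacobson_le {M : Submodule Rᵐᵒᵖ R} (hM : IsCoatom M) : rightJacobson R ≤ M :=
  sInf_le hM

theorem finite_of_semilocal (h : IsSemisimpleModule Rᵐᵒᵖ (R ⧸ rightJacobson R)) :
    Finite (Cls R) := by
  have hf : Module.Finite Rᵐᵒᵖ R := by
    refine ⟨⟨{1}, ?_⟩⟩
    rw [eq_top_iff]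
    intro x _
    rw [Finset.coe_singleton, Submodule.mem_span_singleton]
    exact ⟨MulOpposite.op x, by rw [op_smul, one_mul]⟩
  obtain ⟨n, S, e, hS⟩ :=
    IsSemisimpleModule.exists_linearEquiv_fin_dfinsupp Rᵐᵒᵖ (R ⧸ rightJacobson R)
  have h1 : ∀ q : Cls R, ∃ i : Fin n, Nonempty (S i ≃ₗ[Rᵐᵒᵖ] Sim q) := by
    intro q
    let π : (R ⧸ rightJacobson R) →ₗ[Rᵐᵒᵖ] Sim q :=
      (rightJacobson R).liftQ (rep q).mkQ (by
        rw [Submodule.ker_mkQ]
        exact jacobson_le (rep_coatom q))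
    have hπ : π ≠ 0 := by
      intro h0
      have h2 := LinearMap.congr_fun h0 (Submodule.Quotient.mk 1)
      have h3 : (rep q).mkQ 1 = 0 := h2
      rw [Submodule.mkQ_apply, Submodule.Quotient.mk_eq_zero] at h3
      apply (rep_coatom q).1
      rw [eq_top_iff]
      intro x _
      have := right_mul_mem (rep q) h3 x
      rwa [one_mul] at this
    have h2 : ∃ i, (π ∘ₗ e.symm.toLinearMap) ∘ₗ DFinsupp.lsingle (M := fun i => S i) i ≠ 0 := by
      by_contra hc
      push Not at hc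
      apply hπ
      have h3 : π ∘ₗ e.symm.toLinearMap = 0 := by
        apply DFinsupp.lhom_ext'
        intro i
        rw [hc i, LinearMap.zero_comp]
      apply LinearMap.ext
      intro x
      have := LinearMap.congr_fun h3 (e x)
      simpa using this
    obtain ⟨i, hi⟩ := h2
    have h3 := hS i
    let g : S i →ₗ[Rᵐᵒᵖ] Sim q :=
      (π ∘ₗ e.symm.toLinearMap) ∘ₗ DFinsupp.lsingle (M := fun i => S i) i
    have hg : g ≠ 0 := hi
    have hgb : Bijective g := by
      have := @LinearMap.bijective_of_ne_zero Rᵐᵒᵖ _ (S i) _ _ (Sim q) _ _ _ _ g hg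
      exact this
    exact ⟨i, ⟨LinearEquiv.ofBijective g hgb⟩⟩
  choose φ hφ using h1
  apply Finite.of_injective φ
  intro q q' hqq'
  obtain ⟨e1⟩ := hφ q
  obtain ⟨e2⟩ := hφ q'
  rw [← hqq'] at e2
  exact cls_eq_of_iso ⟨e1.symm.trans e2⟩

theorem nil_of_semilocal (h : SemilocalNilModSing R) :
    ∀ a ∈ radOver (annSocle R), ∃ n : ℕ, a ^ n ∈ annSocle R := by
  obtain ⟨hss, hnil⟩ := h
  obtain ⟨A, hA⟩ := exists_annIdeal R
  intro a ha
  let W : Submodule Rᵐᵒᵖ R := rightJacobson R ⊔ toRight A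
  have haW : a ∈ W := by
    by_contra haW
    have hssW : IsSemisimpleModule Rᵐᵒᵖ (R ⧸ W) := by
      let π : (R ⧸ rightJacobson R) →ₗ[Rᵐᵒᵖ] (R ⧸ W) :=
        (rightJacobson R).liftQ W.mkQ (by
          rw [Submodule.ker_mkQ]
          exact le_sup_left)
      apply IsSemisimpleModule.of_surjective π
      intro y
      obtain ⟨x, rfl⟩ := W.mkQ_surjective y
      exact ⟨Submodule.Quotient.mk x, rfl⟩
    obtain ⟨C, hC⟩ := exists_isCompl (Submodule.span Rᵐᵒᵖ {W.mkQ a})
    have ha0 : W.mkQ a ≠ 0 := by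
      intro h0
      apply haW
      rwa [Submodule.mkQ_apply, Submodule.Quotient.mk_eq_zero] at h0
    have haC : W.mkQ a ∉ C := by
      intro h
      apply ha0
      have := (Submodule.disjoint_def.mp hC.disjoint) _ (Submodule.mem_span_singleton_self _) h
      exact this
    have h1 : (1 : R) ∉ C.comap W.mkQ := by
      intro h
      apply haC
      have h2 : (1 : R) * a ∈ C.comap W.mkQ := right_mul_mem _ h a
      rw [one_mul] at h2
      exact h2
    obtain ⟨M, hM, hCM⟩ := exists_coatom _ h1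
    have hWM : W ≤ M := by
      refine le_trans ?_ hCM
      intro x hx
      change W.mkQ x ∈ C
      rw [Submodule.mkQ_apply, (Submodule.Quotient.mk_eq_zero W).mpr hx]
      exact C.zero_mem
    have haM : a ∈ M := by
      apply ha M hM
      intro x hx
      apply hWM
      exact (le_sup_right : toRight A ≤ W) ((hA x).mpr hx)
    apply hM.1
    rw [eq_top_iff]
    intro x _
    have hx : W.mkQ x ∈ (Submodule.span Rᵐᵒᵖ {W.mkQ a}) ⊔ C := by
      rw [hC.sup_eq_top]; trivial
    obtain ⟨y, hy, z, hz, hyz⟩ := Submodule.mem_sup.mp hx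
    obtain ⟨r, rfl⟩ := Submodule.mem_span_singleton.mp hy
    obtain ⟨z', rfl⟩ := W.mkQ_surjective z
    have h3 : z' ∈ M := hCM hz
    have h4 : x - (r • a + z') ∈ W := by
      rw [← Submodule.Quotient.mk_eq_zero, ← Submodule.mkQ_apply, map_sub, map_add, map_smul, hyz,
        sub_self]
    have h5 : x = (x - (r • a + z')) + (r • a + z') := by abel
    rw [h5]
    exact M.add_mem (hWM h4) (M.add_mem (M.smul_mem r haM) h3)
  obtain ⟨j, hj, l, hl, hjl⟩ := Submodule.mem_sup.mp haW
  obtain ⟨n, hn⟩ := hnil j hj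
  refine ⟨n, ?_⟩
  have h1 : lamV a = lamV j := by
    rw [← hjl, lamV_add, mem_annSocle_iff.mp ((hA l).mp hl), add_zero]
  rw [mem_annSocle_iff, lamV_pow, h1, ← lamV_pow]
  exact singular_kills hn

end

end Pool.MP_9c7981_al.H7
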