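import Pool.Agent.Lib.MP_9c7981_al_H7.Basic

/-!
# Primitive ideals, isomorphism classes of simple modules
-/

set_option autoImplicit false
universe u v

namespace Pool.MP_9c7981_al.H7

open Function

section
variable {R : Type u} [Ring R]

/-- the annihilator of the right module `R ⧸ M` -/
def prim (M : Submodule Rᵐᵒᵖ R) : Set R := {a | ∀ x : R, x * a ∈ M}

theorem mem_of_mem_prim {M : Submodule Rᵐᵒᵖ R} {a : R} (h : a ∈ prim M) : a ∈ M := by
  have := h 1
  rwa [one_mul] at this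

theorem prim_add {M : Submodule Rᵐᵒᵖ R} {a b : R} (ha : a ∈ prim M) (hb : b ∈ prim M) :
    a + b ∈ prim M := by
  intro x
  rw [mul_add]
  exact M.add_mem (ha x) (hb x)

theorem prim_mul_left {M : Submodule Rᵐᵒᵖ R} {a : R} (ha : a ∈ prim M) (r : R) :
    r * a ∈ prim M := by
  intro x
  rw [← mul_assoc]
  exact ha _

theorem prim_mul_right {M : Submodule Rᵐᵒᵖ R} {a : R} (ha : a ∈ prim M) (r : R) :
    a * r ∈ prim M := by
  intro x
  rw [← mul_assoc]
  exact right_mul_mem M (ha x) r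

theorem prim_prime {M : Submodule Rᵐᵒᵖ R} (hM : IsCoatom M) {a b : R}
    (h : ∀ r, a * r * b ∈ prim M) : a ∈ prim M ∨ b ∈ prim M := by
  by_contra hc
  push Not at hc
  obtain ⟨ha, hb⟩ := hc
  have ha' : ∃ x, x * a ∉ M := by
    by_contra h'
    push Not at h'
    exact ha h'
  have hb' : ∃ x, x * b ∉ M := by
    by_contra h'
    push Not at h'
    exact hb h'
  obtain ⟨x, hx⟩ := ha'
  obtain ⟨y, hy⟩ := hb'
  have h1 : M ⊔ Submodule.span Rᵐᵒᵖ {x * a} = ⊤ := by
    apply hM.2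
    refine lt_of_le_of_ne le_sup_left ?_
    intro h'
    apply hx
    rw [h']
    exact (le_sup_right : _ ≤ M ⊔ _) (Submodule.mem_span_singleton_self _)
  have h2 : y ∈ M ⊔ Submodule.span Rᵐᵒᵖ {x * a} := by rw [h1]; trivial
  obtain ⟨m, hm, z, hz, hmz⟩ := Submodule.mem_sup.mp h2
  obtain ⟨r, rfl⟩ := Submodule.mem_span_singleton.mp hz
  apply hy
  rw [← hmz, add_mul]
  apply M.add_mem (right_mul_mem M hm b)
  have h3 : r • (x * a) = x * a * r.unop := rfl
  rw [h3]
  have h4 := h r.unop x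
  have h5 : x * a * r.unop * b = x * (a * r.unop * b) := by simp only [mul_assoc]
  rw [h5]
  exact h4

theorem mem_prim_iff {M : Submodule Rᵐᵒᵖ R} {a : R} :
    a ∈ prim M ↔ ∀ y : R ⧸ M, (MulOpposite.op a) • y = 0 := by
  constructor
  · intro h y
    obtain ⟨x, rfl⟩ := Submodule.Quotient.mk_surjective M y
    rw [← Submodule.Quotient.mk_smul, Submodule.Quotient.mk_eq_zero]
    exact h x
  · intro h x
    have := h (Submodule.Quotient.mk x)
    rwa [← Submodule.Quotient.mk_smul, Submodule.Quotient.mk_eq_zero] at this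

theorem prim_eq_of_iso {M N : Submodule Rᵐᵒᵖ R} (e : (R ⧸ M) ≃ₗ[Rᵐᵒᵖ] (R ⧸ N)) :
    prim M = prim N := by
  ext a
  rw [mem_prim_iff, mem_prim_iff]
  constructor
  · intro h y
    have := h (e.symm y)
    rw [← map_smul] at this
    have h2 := congrArg e this
    simpa using h2
  · intro h y
    have := h (e y)
    rw [← map_smul] at this
    have h2 := congrArg e.symm this
    simpa using h2

/-- a set closed under left multiplication contained in `M` is contained in `prim M` -/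
theorem subset_prim {M : Submodule Rᵐᵒᵖ R} {I : Set R} (hI : ∀ r : R, ∀ a ∈ I, r * a ∈ I)
    (h : ∀ x ∈ I, x ∈ M) : ∀ x ∈ I, x ∈ prim M :=
  fun x hx y => h _ (hI y x hx)

theorem annSocle_mul_left (r : R) {a : R} (ha : a ∈ annSocle R) : r * a ∈ annSocle R := by
  intro x hx
  rw [mul_assoc, ha x hx, mul_zero]

theorem annSocle_mul_right (r : R) {a : R} (ha : a ∈ annSocle R) : a * r ∈ annSocle R := by
  intro x hx
  rw [mul_assoc]
  exact ha _ (socle_invariant (lam r) hx)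

/-- every proper right ideal is in a maximal one -/
theorem exists_coatom (I : Submodule Rᵐᵒᵖ R) (h : (1 : R) ∉ I) :
    ∃ M : Submodule Rᵐᵒᵖ R, IsCoatom M ∧ I ≤ M := by
  have hne : I ≠ ⊤ := by
    rintro rfl
    exact h trivial
  have hf : Module.Finite Rᵐᵒᵖ R := by
    refine ⟨⟨{1}, ?_⟩⟩
    rw [eq_top_iff]
    intro x _
    rw [Finset.coe_singleton, Submodule.mem_span_singleton]
    exact ⟨MulOpposite.op x, by rw [op_smul, one_mul]⟩
  have hc : IsCoatomic (Submodule Rᵐᵒᵖ R) :=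
    CompleteLattice.coatomic_of_top_compact
      ((Submodule.fg_iff_compact _).mp (Module.finite_def.mp hf))
  rcases hc.eq_top_or_exists_le_coatom I with h' | ⟨M, hM, hIM⟩
  · exact absurd h' hne
  · exact ⟨M, hM, hIM⟩

end

/-- the right ideal underlying a two-sided ideal -/
def toRight {R : Type u} [Ring R] (I : TwoSidedIdeal R) : Submodule Rᵐᵒᵖ R where
  carrier := {x | x ∈ I}
  add_mem' := fun {a b} ha hb => I.add_mem ha hb
  zero_mem' := I.zero_mem
  smul_mem' := fun c x hx => by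
    have h : c • x = x * c.unop := rfl
    change c • x ∈ I
    rw [h]
    exact I.mul_mem_right _ _ hx

theorem mem_toRight {R : Type u} [Ring R] (I : TwoSidedIdeal R) (x : R) :
    x ∈ toRight I ↔ x ∈ I := Iff.rfl

/-- isomorphism of simple quotients of `R` -/
def simpleSetoid (R : Type u) [Ring R] : Setoid {M : Submodule Rᵐᵒᵖ R // IsCoatom M} where
  r M N := Nonempty ((R ⧸ M.1) ≃ₗ[Rᵐᵒᵖ] (R ⧸ N.1))
  iseqv := ⟨fun _ => ⟨LinearEquiv.refl _ _⟩, fun ⟨e⟩ => ⟨e.symm⟩, fun ⟨e⟩ ⟨f⟩ => ⟨e.trans f⟩⟩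

/-- the isomorphism classes of simple right modules -/
def Cls (R : Type u) [Ring R] : Type u := Quotient (simpleSetoid R)

section
variable {R : Type u} [Ring R]

/-- a representative maximal right ideal -/
noncomputable def rep (q : Cls R) : Submodule Rᵐᵒᵖ R := (Quotient.out q).1

theorem rep_coatom (q : Cls R) : IsCoatom (rep q) := (Quotient.out q).2

/-- the simple module of the class `q` -/
abbrev Sim (q : Cls R) : Type u := R ⧸ rep q

instance (q : Cls R) : IsSimpleModule Rᵐᵒᵖ (Sim q) :=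
  isSimpleModule_iff_isCoatom.mpr (rep_coatom q)

theorem exists_cls {M : Submodule Rᵐᵒᵖ R} (hM : IsCoatom M) :
    ∃ q : Cls R, Nonempty ((R ⧸ M) ≃ₗ[Rᵐᵒᵖ] Sim q) := by
  refine ⟨Quotient.mk (simpleSetoid R) ⟨M, hM⟩, ?_⟩
  have h := Quotient.mk_out (s := simpleSetoid R) ⟨M, hM⟩
  obtain ⟨e⟩ := (h : Nonempty ((R ⧸ (Quotient.out (Quotient.mk (simpleSetoid R)
    ⟨M, hM⟩)).1) ≃ₗ[Rᵐᵒᵖ] (R ⧸ M)))
  exact ⟨e.symm⟩

theorem cls_eq_of_iso {q q' : Cls R} (e : Nonempty (Sim q ≃ₗ[Rᵐᵒᵖ] Sim q')) : q = q' := by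
  have h : Quotient.mk (simpleSetoid R) (Quotient.out q) =
      Quotient.mk (simpleSetoid R) (Quotient.out q') := Quotient.sound e
  exact (Quotient.out_eq q).symm.trans (h.trans (Quotient.out_eq q'))

theorem map_eq_zero_of_ne {q q' : Cls R} (h : q ≠ q') (f : Sim q →ₗ[Rᵐᵒᵖ] Sim q') : f = 0 := by
  by_contra hf
  exact h (cls_eq_of_iso ⟨LinearEquiv.ofBijective f (LinearMap.bijective_of_ne_zero hf)⟩)

theorem finite_cls (h : FinitelyManySimples R) : Finite (Cls R) := by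
  obtain ⟨T, hT⟩ := h
  choose N hN hiso using fun q : Cls R => hT (rep q) (rep_coatom q)
  let φ : Cls R → T := fun q => ⟨N q, hN q⟩
  apply Finite.of_injective φ
  intro q q' hqq'
  have h1 : N q = N q' := congrArg Subtype.val hqq'
  obtain ⟨e⟩ := hiso q
  obtain ⟨e'⟩ := hiso q'
  rw [← h1] at e'
  exact cls_eq_of_iso ⟨e.trans e'.symm⟩

/-- the primitive ideal of a class -/
def P (q : Cls R) : Set R := prim (rep q)

theorem P_eq_prim {M : Submodule Rᵐᵒᵖ R} {q : Cls R} (e : Nonempty ((R ⧸ M) ≃ₗ[Rᵐᵒᵖ] Sim q)) :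
    P q = prim M := by
  obtain ⟨e⟩ := e
  exact (prim_eq_of_iso e).symm

theorem P_prime (q : Cls R) {a b : R} (h : ∀ r, a * r * b ∈ P q) : a ∈ P q ∨ b ∈ P q :=
  prim_prime (rep_coatom q) h

/-- a proper two-sided ideal lies in some primitive ideal -/
theorem exists_P (I : TwoSidedIdeal R) (h : (1 : R) ∉ I) : ∃ q : Cls R, ∀ x ∈ I, x ∈ P q := by
  obtain ⟨M, hM, hIM⟩ := exists_coatom (toRight I) h
  obtain ⟨q, hq⟩ := exists_cls hM
  refine ⟨q, fun x hx => ?_⟩
  rw [P_eq_prim hq]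
  intro y
  exact hIM (I.mul_mem_left _ _ hx)

/-- elements outside `radOver I`, for `I` closed under left multiplication -/
theorem exists_P_of_notMem_radOver {I : Set R} (hI : ∀ r : R, ∀ a ∈ I, r * a ∈ I) {a : R}
    (ha : a ∉ radOver I) : ∃ q : Cls R, (∀ x ∈ I, x ∈ P q) ∧ a ∉ P q := by
  have h : ∃ M : Submodule Rᵐᵒᵖ R, IsCoatom M ∧ (∀ x ∈ I, x ∈ M) ∧ a ∉ M := by
    by_contra h'
    push Not at h'
    exact ha (fun M hM hIM => h' M hM hIM)
  obtain ⟨M, hM, hIM, haM⟩ := h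
  obtain ⟨q, hq⟩ := exists_cls hM
  refine ⟨q, ?_, ?_⟩
  · rw [P_eq_prim hq]
    exact subset_prim hI hIM
  · rw [P_eq_prim hq]
    intro h
    exact haM (mem_of_mem_prim h)

theorem mem_radOver_of_P {I : Set R} (hI : ∀ r : R, ∀ a ∈ I, r * a ∈ I) {a : R}
    (h : ∀ q : Cls R, (∀ x ∈ I, x ∈ P q) → a ∈ P q) : a ∈ radOver I := by
  intro M hM hIM
  obtain ⟨q, hq⟩ := exists_cls hM
  have h1 : a ∈ P q := h q (by rw [P_eq_prim hq]; exact subset_prim hI hIM)
  rw [P_eq_prim hq] at h1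
  exact mem_of_mem_prim h1

theorem radOver_mem_P {I : Set R} {a : R}
    (h : a ∈ radOver I) (q : Cls R) (hq : ∀ x ∈ I, x ∈ P q) : a ∈ P q := by
  intro x
  -- the coatom {r | x * r ∈ rep q} or everything
  by_contra hx
  -- consider M' = {r | x * r ∈ rep q}, a maximal right ideal as R/M' ≅ R / rep q
  let f : R →ₗ[Rᵐᵒᵖ] Sim q := (rep q).mkQ ∘ₗ lam x
  have hf : f ≠ 0 := by
    intro h0
    apply hx
    have h1 := LinearMap.congr_fun h0 a
    have h2 : (rep q).mkQ (x * a) = 0 := h1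
    rwa [Submodule.mkQ_apply, Submodule.Quotient.mk_eq_zero] at h2
  have hc : IsCoatom (LinearMap.ker f) :=
    LinearMap.isCoatom_ker_of_surjective (LinearMap.surjective_of_ne_zero hf)
  have h1 : a ∈ LinearMap.ker f := by
    apply h _ hc
    intro y hy
    have h2 : x * y ∈ rep q := hq y hy x
    change (rep q).mkQ (x * y) = 0
    rwa [Submodule.mkQ_apply, Submodule.Quotient.mk_eq_zero]
  apply hx
  have h2 : (rep q).mkQ (x * a) = 0 := h1
  rwa [Submodule.mkQ_apply, Submodule.Quotient.mk_eq_zero] at h2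

end

end Pool.MP_9c7981_al.H7
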